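import Pool.Agent.V8H73.AZ.Contra
import Pool.Agent.N207.ZG.Basis

/-!
# Linear relations between points of a curve: analytic functions
-/

set_option autoImplicit false
set_option linter.unusedSectionVars false

open Polynomial

namespace Pool.Agent.V8H73.AZ

variable {X : Type} [Fintype X]

/-- the ring of the analytic functions -/
def An (U : Set (X → ℂ)) : Subring (U → ℂ) where
  carrier := {a | ∃ g : (X → ℂ) → ℂ, AnalyticOnNhd ℂ g U ∧ ∀ z : U, a z = g z}
  zero_mem' := ⟨fun _ => 0, analyticOnNhd_const, fun _ => rfl⟩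
  one_mem' := ⟨fun _ => 1, analyticOnNhd_const, fun _ => rfl⟩
  add_mem' := by
    rintro a b ⟨g, hg, hg'⟩ ⟨h, hh, hh'⟩
    exact ⟨g + h, hg.add hh, fun z => by rw [Pi.add_apply, Pi.add_apply, hg', hh']⟩
  mul_mem' := by
    rintro a b ⟨g, hg, hg'⟩ ⟨h, hh, hh'⟩
    exact ⟨g * h, hg.mul hh, fun z => by rw [Pi.mul_apply, Pi.mul_apply, hg', hh']⟩
  neg_mem' := by
    rintro a ⟨g, hg, hg'⟩
    exact ⟨-g, hg.neg, fun z => by rw [Pi.neg_apply, Pi.neg_apply, hg']⟩

theorem an_domain {U : Set (X → ℂ)} (hU : IsOpen U) (hc : IsPreconnected U) (hne : U.Nonempty) : IsDomain (An U) := by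
  have : NoZeroDivisors (An U) := by
    constructor
    intro a a' h0
    obtain ⟨g, hg, hg'⟩ := a.2
    obtain ⟨g', hg1, hg1'⟩ := a'.2
    by_cases h1 : a = 0
    · exact Or.inl h1
    right
    have h2 : ∃ z : U, a.1 z ≠ 0 := by
      by_contra hcon
      push Not at hcon
      exact h1 (Subtype.ext (funext hcon))
    obtain ⟨z, hz⟩ := h2
    have h3 : ∀ᶠ w in nhds (z : X → ℂ), g w ≠ 0 :=
      (hg z z.2).continuousAt.eventually_ne (by rw [← hg']; exact hz)
    have h4 := hg1.eqOn_zero_of_preconnected_of_eventuallyEq_zero hc z.2 (by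
      filter_upwards [h3, hU.mem_nhds z.2] with w hw hwU
      have h5 := congrArg (fun x : An U => x.1 ⟨w, hwU⟩) h0
      have h6 : a.1 ⟨w, hwU⟩ * a'.1 ⟨w, hwU⟩ = 0 := h5
      rw [hg', hg1'] at h6
      exact (mul_eq_zero.1 h6).resolve_left hw)
    refine Subtype.ext (funext fun w => ?_)
    rw [hg1']
    exact h4 w.2
  obtain ⟨x0, hx0⟩ := hne
  have : Nontrivial (An U) := by
    refine ⟨0, 1, fun h => ?_⟩
    have h1 := congrArg (fun x : An U => x.1 ⟨x0, hx0⟩) h
    exact zero_ne_one h1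
  exact NoZeroDivisors.to_isDomain _

/-- the polynomials are analytic functions -/
noncomputable def toAn (U : Set (X → ℂ)) : MvPolynomial X ℂ →+* An U :=
  RingHom.codRestrict (RingHom.pi fun x : U => MvPolynomial.eval (x : X → ℂ)) (An U) fun p =>
    ⟨fun z => MvPolynomial.eval z p, (AnalyticOnNhd.eval_mvPolynomial _).mono (Set.subset_univ _), fun _ => rfl⟩

theorem toAn_apply {U : Set (X → ℂ)} (p : MvPolynomial X ℂ) (x : U) :
    (toAn U p).1 x = MvPolynomial.eval (x : X → ℂ) p := rfl

theorem toAn_inj {U : Set (X → ℂ)} (hU : IsOpen U) (hne : U.Nonempty) : Function.Injective (toAn U) := by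
  obtain ⟨x0, hx0⟩ := hne
  rw [injective_iff_map_eq_zero]
  intro r hr
  have h1 : ∀ z ∈ U, MvPolynomial.eval z r = 0 := by
    intro z hz
    exact congrArg (fun x : An U => x.1 ⟨z, hz⟩) hr
  have han' : AnalyticOnNhd ℂ (fun z : X → ℂ => MvPolynomial.eval z r) Set.univ :=
    AnalyticOnNhd.eval_mvPolynomial _
  have h2 := han'.eqOn_zero_of_preconnected_of_eventuallyEq_zero isPreconnected_univ (Set.mem_univ x0)
    (by filter_upwards [hU.mem_nhds hx0] with z hz using h1 z hz)
  exact MvPolynomial.funext fun z => by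
    rw [map_zero]
    exact h2 (Set.mem_univ z)

/-- an analytic function as an element of the ring -/
def el {U : Set (X → ℂ)} {f : (X → ℂ) → ℂ} (hf : AnalyticOnNhd ℂ f U) : An U := ⟨fun z => f z, f, hf, fun _ => rfl⟩

theorem an_ext {U : Set (X → ℂ)} {a b : An U} (h : ∀ x : U, a.1 x = b.1 x) : a = b := Subtype.ext (funext h)

/-- the value at a point -/
def evp {U : Set (X → ℂ)} (x : U) : An U →+* ℂ := (Pi.evalRingHom (fun _ : U => ℂ) x).comp (An U).subtype

theorem evp_apply {U : Set (X → ℂ)} (x : U) (a : An U) : evp x a = a.1 x := rfl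

theorem evp_toAn {U : Set (X → ℂ)} (x : U) (p : MvPolynomial X ℂ) :
    evp x (toAn U p) = MvPolynomial.eval (x : X → ℂ) p := rfl

theorem evp_el {U : Set (X → ℂ)} (x : U) {f : (X → ℂ) → ℂ} (hf : AnalyticOnNhd ℂ f U) : evp x (el hf) = f x := rfl

theorem zero_of_evp {U : Set (X → ℂ)} {a : An U} (h : ∀ x : U, evp x a = 0) : a = 0 := an_ext fun x => h x

/-- **Independence in the field of fractions.** -/
theorem ind_alg {U : Set (X → ℂ)} {ι : Type} {z : ι → (X → ℂ) → ℂ}
    (hz : ∀ i, AnalyticOnNhd ℂ (z i) U) (h : Pool.Agent.N207.AX.Ind U z) :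
    ∀ p : MvPolynomial ι (MvPolynomial X ℂ), p.eval₂ (toAn U) (fun i => el (hz i)) = 0 → p = 0 := by
  intro p hp
  refine h p fun x hx => ?_
  have h1 := congrArg (evp (⟨x, hx⟩ : U)) hp
  rw [map_zero, ← MvPolynomial.coe_eval₂Hom, ← RingHom.comp_apply, MvPolynomial.comp_eval₂Hom] at h1
  exact h1

open Classical in
/-- **No linear relation, for functions.** -/
theorem fn_contra {U : Set (X → ℂ)} (hU : IsOpen U) (hc : IsPreconnected U) (hne : U.Nonempty) {ι : Type} [Fintype ι]
    {z y w : ι → (X → ℂ) → ℂ} {z' y' w' : (X → ℂ) → ℂ} (hz : ∀ i, AnalyticOnNhd ℂ (z i) U)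
    (hy : ∀ i, AnalyticOnNhd ℂ (y i) U) (hw : ∀ i, AnalyticOnNhd ℂ (w i) U) (hz' : AnalyticOnNhd ℂ z' U)
    (hy' : AnalyticOnNhd ℂ y' U) (hw' : AnalyticOnNhd ℂ w' U) (hI : Pool.Agent.N207.AX.Ind U z)
    {a b : ι} (hab : a ≠ b) {m : ι → ℂ} {m' : ℂ} (hm : ∀ i, m i ≠ 0) (hm' : m' ≠ 0) {C : ℂ}
    (hC : ∀ x ∈ U, ∑ i, m i * z i x + m' * z' x = C) {M : Finset (ℕ × ℕ)} {c : ℕ × ℕ → MvPolynomial X ℂ}
    (hP : ∀ i, ∀ x ∈ U, PP M (fun p => MvPolynomial.eval x (c p)) (z i x) (y i x) = 0)
    (hP' : ∀ x ∈ U, PP M (fun p => MvPolynomial.eval x (c p)) (z' x) (y' x) = 0)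
    (hd : ∀ i, ∀ x ∈ U, w i x * dd M (fun p => MvPolynomial.eval x (c p)) (z i x) (y i x) = m i)
    (hd' : ∀ x ∈ U, w' x * dd M (fun p => MvPolynomial.eval x (c p)) (z' x) (y' x) = m')
    (hY : ∀ i, ∃ x ∈ U, polyY M (fun p => MvPolynomial.eval x (c p)) (z i x) ≠ 0)
    (hY' : ∃ x ∈ U, polyY M (fun p => MvPolynomial.eval x (c p)) (z' x) ≠ 0)
    (hZ' : ∃ x ∈ U, polyZ M (fun p => MvPolynomial.eval x (c p)) (y' x) ≠ 0)
    (R1 : ∀ x ∈ U, ∑ i, w i x + w' x = 0) (R2 : ∀ x ∈ U, ∑ i, w i x * z i x + w' x * z' x = 0)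
    (R3 : ∀ x ∈ U, ∑ i, w i x * y i x + w' x * y' x = 0)
    (R4 : ∀ x ∈ U, ∑ i, w i x * (z i x * y i x) + w' x * (z' x * y' x) = 0) : False := by
  have hdom : IsDomain (An U) := an_domain hU hc hne
  let _ : Algebra (MvPolynomial X ℂ) (An U) := (toAn U).toAlgebra
  have hfs : FaithfulSMul (MvPolynomial X ℂ) (An U) :=
    (faithfulSMul_iff_algebraMap_injective _ _).2 (toAn_inj hU hne)
  let _ : Algebra (FractionRing (MvPolynomial X ℂ)) (FractionRing (An U)) :=
    FractionRing.liftAlgebra (MvPolynomial X ℂ) (FractionRing (An U))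
  have hinjR : Function.Injective (algebraMap (MvPolynomial X ℂ) (FractionRing (MvPolynomial X ℂ))) :=
    IsFractionRing.injective _ _
  have hinjA : Function.Injective (algebraMap (An U) (FractionRing (An U))) := IsFractionRing.injective _ _
  have hch : CharZero (FractionRing (MvPolynomial X ℂ)) := by
    constructor
    intro p q hpq
    have h1 : algebraMap (MvPolynomial X ℂ) (FractionRing (MvPolynomial X ℂ)) (p : MvPolynomial X ℂ) =
        algebraMap (MvPolynomial X ℂ) (FractionRing (MvPolynomial X ℂ)) (q : MvPolynomial X ℂ) := by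
      rw [map_natCast, map_natCast]
      exact hpq
    exact_mod_cast hinjR h1
  have hchF : CharZero (FractionRing (An U)) := charZero_of_injective_algebraMap
    (algebraMap (FractionRing (MvPolynomial X ℂ)) (FractionRing (An U))).injective
  have htow : ∀ p : MvPolynomial X ℂ, algebraMap (FractionRing (MvPolynomial X ℂ)) (FractionRing (An U))
      (algebraMap (MvPolynomial X ℂ) (FractionRing (MvPolynomial X ℂ)) p) =
      algebraMap (An U) (FractionRing (An U)) (toAn U p) := by
    intro p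
    rw [← IsScalarTower.algebraMap_apply (MvPolynomial X ℂ) (FractionRing (MvPolynomial X ℂ)) (FractionRing (An U)),
      IsScalarTower.algebraMap_apply (MvPolynomial X ℂ) (An U) (FractionRing (An U))]
    rfl
  let φ : An U →+* FractionRing (An U) := algebraMap (An U) (FractionRing (An U))
  have hind : AlgebraicIndependent (FractionRing (MvPolynomial X ℂ)) (fun i => φ (el (hz i))) := by
    have h1 : AlgebraicIndependent (MvPolynomial X ℂ) (fun i => φ (el (hz i))) := by
      rw [algebraicIndependent_iff]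
      intro p hp
      refine ind_alg hz hI p (hinjA ?_)
      rw [map_zero, ← hp, ← MvPolynomial.coe_eval₂Hom, ← RingHom.comp_apply, MvPolynomial.comp_eval₂Hom]
      rfl
    have h2 : Algebra.IsAlgebraic (MvPolynomial X ℂ) (FractionRing (MvPolynomial X ℂ)) :=
      (IsFractionRing.comap_isAlgebraic_iff (K := FractionRing (MvPolynomial X ℂ))).2 inferInstance
    exact h1.extendScalars _
  let cC : ℂ → FractionRing (MvPolynomial X ℂ) := fun u =>
    algebraMap (MvPolynomial X ℂ) (FractionRing (MvPolynomial X ℂ)) (MvPolynomial.C u)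
  have hcC : ∀ u, algebraMap (FractionRing (MvPolynomial X ℂ)) (FractionRing (An U)) (cC u) =
      φ (toAn U (MvPolynomial.C u)) := fun u => htow _
  have hcC0 : ∀ u, u ≠ 0 → cC u ≠ 0 := by
    intro u hu h
    have h1 : MvPolynomial.C u = (0 : MvPolynomial X ℂ) := hinjR (by rw [map_zero]; exact h)
    rw [MvPolynomial.C_eq_zero] at h1
    exact hu h1
  have hcc : (fun p => algebraMap (FractionRing (MvPolynomial X ℂ)) (FractionRing (An U))
      (algebraMap (MvPolynomial X ℂ) (FractionRing (MvPolynomial X ℂ)) (c p))) =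
      fun p => φ (toAn U (c p)) := funext fun p => htow (c p)
  have hev : ∀ x : U, (fun p => evp x (toAn U (c p))) = fun p => MvPolynomial.eval (x : X → ℂ) (c p) := fun x => rfl
  refine contra (k := FractionRing (MvPolynomial X ℂ)) (F := FractionRing (An U)) (M := M)
    (c := fun p => algebraMap (MvPolynomial X ℂ) (FractionRing (MvPolynomial X ℂ)) (c p))
    (z := fun i => φ (el (hz i))) (y := fun i => φ (el (hy i))) (w := fun i => φ (el (hw i)))
    (z' := φ (el hz')) (y' := φ (el hy')) (w' := φ (el hw')) (m := fun i => cC (m i)) (m' := cC m') (C := cC C)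
    hind hab (fun i => hcC0 _ (hm i)) (hcC0 _ hm') ?_ ?_ ?_ ?_ ?_ ?_ ?_ ?_ ?_ ?_ ?_ ?_
  · simp only [hcC, ← map_mul, ← map_sum, ← map_add]
    congr 1
    refine an_ext fun x => ?_
    simp only [← evp_apply, map_add, map_sum, map_mul, evp_el, evp_toAn, MvPolynomial.eval_C]
    exact hC x x.2
  · intro i
    rw [hcc, ← PP_map]
    have h1 : PP M (fun p => toAn U (c p)) (el (hz i)) (el (hy i)) = 0 := zero_of_evp fun x => by
      rw [PP_map, hev, evp_el, evp_el]
      exact hP i x x.2
    rw [h1, map_zero]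
  · rw [hcc, ← PP_map]
    have h1 : PP M (fun p => toAn U (c p)) (el hz') (el hy') = 0 := zero_of_evp fun x => by
      rw [PP_map, hev, evp_el, evp_el]
      exact hP' x x.2
    rw [h1, map_zero]
  · intro i
    rw [hcc, ← dd_map, ← map_mul, hcC]
    congr 1
    refine an_ext fun x => ?_
    rw [← evp_apply, map_mul, dd_map, hev, evp_el, evp_el, evp_el, ← evp_apply, evp_toAn, MvPolynomial.eval_C]
    exact hd i x x.2
  · rw [hcc, ← dd_map, ← map_mul, hcC]
    congr 1
    refine an_ext fun x => ?_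
    rw [← evp_apply, map_mul, dd_map, hev, evp_el, evp_el, evp_el, ← evp_apply, evp_toAn, MvPolynomial.eval_C]
    exact hd' x x.2
  · intro i h
    rw [hcc, ← polyY_map] at h
    have h1 : polyY M (fun p => toAn U (c p)) (el (hz i)) = 0 :=
      Polynomial.map_injective φ hinjA (by rw [h, Polynomial.map_zero])
    obtain ⟨x, hx, hx0⟩ := hY i
    apply hx0
    have h2 := congrArg (Polynomial.map (evp (⟨x, hx⟩ : U))) h1
    rw [polyY_map, hev, evp_el, Polynomial.map_zero] at h2
    exact h2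
  · intro h
    rw [hcc, ← polyY_map] at h
    have h1 : polyY M (fun p => toAn U (c p)) (el hz') = 0 :=
      Polynomial.map_injective φ hinjA (by rw [h, Polynomial.map_zero])
    obtain ⟨x, hx, hx0⟩ := hY'
    apply hx0
    have h2 := congrArg (Polynomial.map (evp (⟨x, hx⟩ : U))) h1
    rw [polyY_map, hev, evp_el, Polynomial.map_zero] at h2
    exact h2
  · intro h
    rw [hcc, ← polyZ_map] at h
    have h1 : polyZ M (fun p => toAn U (c p)) (el hy') = 0 :=
      Polynomial.map_injective φ hinjA (by rw [h, Polynomial.map_zero])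
    obtain ⟨x, hx, hx0⟩ := hZ'
    apply hx0
    have h2 := congrArg (Polynomial.map (evp (⟨x, hx⟩ : U))) h1
    rw [polyZ_map, hev, evp_el, Polynomial.map_zero] at h2
    exact h2
  · simp only [← map_mul, ← map_sum, ← map_add]
    rw [← map_zero φ]
    congr 1
    refine zero_of_evp fun x => ?_
    simp only [map_add, map_sum, map_mul, evp_el]
    exact R1 x x.2
  · simp only [← map_mul, ← map_sum, ← map_add]
    rw [← map_zero φ]
    congr 1
    refine zero_of_evp fun x => ?_
    simp only [map_add, map_sum, map_mul, evp_el]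
    exact R2 x x.2
  · simp only [← map_mul, ← map_sum, ← map_add]
    rw [← map_zero φ]
    congr 1
    refine zero_of_evp fun x => ?_
    simp only [map_add, map_sum, map_mul, evp_el]
    exact R3 x x.2
  · simp only [← map_mul, ← map_sum, ← map_add]
    rw [← map_zero φ]
    congr 1
    refine zero_of_evp fun x => ?_
    simp only [map_add, map_sum, map_mul, evp_el]
    exact R4 x x.2

end Pool.Agent.V8H73.AZ
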