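import Mathlib

/-!
# Few lattice points near a compact null set
-/

set_option autoImplicit false
set_option linter.unusedSectionVars false

open MeasureTheory Set Filter Topology

namespace Pool.Agent.V8H73.AZ

variable {ι : Type} [Fintype ι] [DecidableEq ι]

/-- the integral vectors bounded by `T` -/
noncomputable def bx (ι : Type) [Fintype ι] [DecidableEq ι] (T : ℕ) : Finset (ι → ℤ) :=
  Fintype.piFinset fun _ => Finset.Icc (-(T : ℤ)) T

theorem mem_bx {T : ℕ} {n : ι → ℤ} : n ∈ bx ι T ↔ ∀ i, |n i| ≤ (T : ℤ) := by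
  unfold bx
  simp [abs_le]

theorem bx_card (T : ℕ) : ((bx ι T).card : ℝ) = (2 * (T : ℝ) + 1) ^ Fintype.card ι := by
  unfold bx
  rw [Fintype.card_piFinset, Finset.prod_const, Int.card_Icc, Finset.card_univ]
  push_cast
  congr 1
  have h1 : ((T : ℤ) + 1 - -(T : ℤ)).toNat = 2 * T + 1 := by omega
  rw [h1]
  push_cast
  ring

/-- the cube at `n / T` -/
def cube (T : ℕ) (n : ι → ℤ) : Set (ι → ℝ) := Set.pi Set.univ fun i => Set.Ico ((n i : ℝ) / T) (((n i : ℝ) + 1) / T)

theorem cube_vol {T : ℕ} (hT : 0 < T) (n : ι → ℤ) :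
    volume (cube T n) = ENNReal.ofReal ((1 / (T : ℝ)) ^ Fintype.card ι) := by
  unfold cube
  rw [Real.volume_pi_Ico]
  have h1 : ∀ i, ENNReal.ofReal (((n i : ℝ) + 1) / T - (n i : ℝ) / T) = ENNReal.ofReal (1 / (T : ℝ)) := by
    intro i
    congr 1
    ring
  simp only [h1, Finset.prod_const, Finset.card_univ]
  rw [ENNReal.ofReal_pow (by positivity)]

theorem cube_disj {T : ℕ} (hT : 0 < T) {n n' : ι → ℤ} (h : n ≠ n') : Disjoint (cube T n) (cube T n') := by
  obtain ⟨i, hi⟩ := Function.ne_iff.1 h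
  rw [Set.disjoint_left]
  intro u hu hu'
  have h1 := hu i trivial
  have h2 := hu' i trivial
  have hTp : (0 : ℝ) < T := by exact_mod_cast hT
  rw [Set.mem_Ico] at h1 h2
  have h3 : (n i : ℝ) < n' i + 1 := by
    have := h1.1.trans_lt h2.2
    rwa [div_lt_div_iff_of_pos_right hTp] at this
  have h4 : (n' i : ℝ) < n i + 1 := by
    have := h2.1.trans_lt h1.2
    rwa [div_lt_div_iff_of_pos_right hTp] at this
  have h5 : n i < n' i + 1 := by exact_mod_cast h3
  have h6 : n' i < n i + 1 := by exact_mod_cast h4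
  omega

open scoped Classical in
/-- **Few lattice points.** -/
theorem near_null {B : Set (ι → ℝ)} (hB : IsCompact B) (h0 : volume B = 0) {ε : ℝ} (hε : 0 < ε) :
    ∃ r : ℝ, 0 < r ∧ ∃ T₀ : ℕ, ∀ T : ℕ, T₀ ≤ T →
      (((bx ι T).filter fun n => (fun i => (n i : ℝ) / T) ∈ Metric.thickening r B).card : ℝ) ≤
        ε * (bx ι T).card := by
  obtain ⟨V, hBV, hV, hVm⟩ := B.exists_isOpen_lt_of_lt (μ := volume) (ENNReal.ofReal ε)
    (by rw [h0]; exact ENNReal.ofReal_pos.2 hε)
  obtain ⟨δ, hδ, hδV⟩ := hB.exists_thickening_subset_open hV hBV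
  refine ⟨δ / 2, by positivity, max 1 (⌈2 / δ⌉₊ + 1), fun T hT => ?_⟩
  rw [max_le_iff] at hT
  have hTp : (0 : ℝ) < T := by exact_mod_cast hT.1
  have hTδ : 1 / (T : ℝ) < δ / 2 := by
    have h1 : 2 / δ < T := (Nat.le_ceil _).trans_lt (by exact_mod_cast hT.2)
    rw [div_lt_iff₀ hδ] at h1
    rw [div_lt_iff₀ hTp]
    linarith
  set S := (bx ι T).filter fun n => (fun i => (n i : ℝ) / T) ∈ Metric.thickening (δ / 2) B with hS
  have hsub : ⋃ n ∈ S, cube T n ⊆ V := by
    refine Set.iUnion₂_subset fun n hn u hu => hδV ?_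
    rw [hS, Finset.mem_filter, Metric.mem_thickening_iff] at hn
    obtain ⟨-, b, hb, hbd⟩ := hn
    rw [Metric.mem_thickening_iff]
    refine ⟨b, hb, ?_⟩
    have h1 : dist u (fun i => (n i : ℝ) / T) ≤ 1 / T := by
      rw [dist_pi_le_iff (by positivity)]
      intro i
      have h2 := hu i trivial
      rw [Set.mem_Ico] at h2
      rw [Real.dist_eq, abs_le]
      have h3 : ((n i : ℝ) + 1) / T = (n i : ℝ) / T + 1 / T := by ring
      constructor
      · have : 0 < 1 / (T : ℝ) := by positivity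
        linarith [h2.1]
      · linarith [h2.2]
    calc dist u b ≤ dist u (fun i => (n i : ℝ) / T) + dist (fun i => (n i : ℝ) / T) b := dist_triangle _ _ _
      _ < δ := by linarith
  have hm : ∀ n ∈ S, MeasurableSet (cube T n) := fun n _ => MeasurableSet.univ_pi fun i => measurableSet_Ico
  have h1 : volume (⋃ n ∈ S, cube T n) = ∑ n ∈ S, volume (cube T n) :=
    measure_biUnion_finset (fun n _ n' _ h => cube_disj hT.1 h) hm
  have h2 : ∑ n ∈ S, volume (cube T n) < ENNReal.ofReal ε := by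
    rw [← h1]
    exact (measure_mono hsub).trans_lt hVm
  simp only [cube_vol hT.1, Finset.sum_const, nsmul_eq_mul] at h2
  have h3 : ((S.card : ℝ)) * (1 / (T : ℝ)) ^ Fintype.card ι < ε := by
    have h4 : ENNReal.ofReal ((S.card : ℝ) * (1 / (T : ℝ)) ^ Fintype.card ι) < ENNReal.ofReal ε := by
      rw [ENNReal.ofReal_mul (by positivity), ENNReal.ofReal_natCast]
      exact h2
    exact (ENNReal.ofReal_lt_ofReal_iff hε).1 h4
  have h4 : (S.card : ℝ) ≤ ε * (T : ℝ) ^ Fintype.card ι := by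
    have h5 : (0 : ℝ) < (T : ℝ) ^ Fintype.card ι := by positivity
    rw [one_div, inv_pow, ← div_eq_mul_inv, div_lt_iff₀ h5] at h3
    exact h3.le
  refine h4.trans (mul_le_mul_of_nonneg_left ?_ hε.le)
  rw [bx_card]
  exact pow_le_pow_left₀ hTp.le (by linarith) _

end Pool.Agent.V8H73.AZ
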