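import Pool.Agent.V8H73.RN.Ind
import Pool.Agent.V8H73.AZ.Lat

/-!
# Independent functions at almost all rational points
-/

set_option autoImplicit false
set_option linter.unusedSectionVars false

open Polynomial Filter Topology NumberField

namespace Pool.Agent.V8H73.AZ

open Pool.Agent.V8H73.RN

theorem norel_comp {Q Q' : Type} {ξ : ℕ → ℂ} {k : ℕ} {T : ℝ} {x : Q → ℂ} (hT : 0 ≤ T) (h : NoRel ξ k T x) (e : Q' → Q)
    (he : Function.Injective e) : NoRel ξ k T (fun q => x (e q)) := by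
  classical
  intro F _ _ hF io R hR1 hR2 hR3
  have hfun : ∀ m : Q →₀ ℕ, (∃ m', m = Finsupp.mapDomain e m') ∨ (MvPolynomial.rename e R).coeff m = 0 := by
    intro m
    by_cases hm : (MvPolynomial.rename e R).coeff m = 0
    · exact Or.inr hm
    · obtain ⟨m', hm', -⟩ := MvPolynomial.coeff_rename_ne_zero e R m hm
      exact Or.inl ⟨m', hm'.symm⟩
  have h1 := h F hF io (MvPolynomial.rename e R) (fun y => by
    by_cases hy : ∃ i, e i = y
    · obtain ⟨i, rfl⟩ := hy
      rw [MvPolynomial.degreeOf_rename_of_injective he]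
      exact hR1 i
    · rw [MvPolynomial.degreeOf_le_iff]
      intro m hm
      rcases hfun m with ⟨m', rfl⟩ | h2
      · rw [Finsupp.mapDomain_of_notMem_range _ _ fun ⟨i, hi⟩ => hy ⟨i, hi⟩]
        exact Nat.zero_le _
      · exact absurd h2 (MvPolynomial.mem_support_iff.1 hm)) (fun m => by
    rcases hfun m with ⟨m', rfl⟩ | h2
    · rw [MvPolynomial.coeff_rename_mapDomain e he]
      exact hR2 m'
    · refine ⟨fun _ => 0, fun b φ => ?_, ?_⟩
      · simp only [map_zero, norm_zero]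
        positivity
      · rw [h2]
        simp) (by
    rw [MvPolynomial.eval_rename]
    exact hR3)
  exact MvPolynomial.rename_injective e he (by rw [h1, map_zero])

theorem norel_mono {Q : Type} {ξ : ℕ → ℂ} {k k' : ℕ} (hk : k ≤ k') {T : ℝ} (hT : 1 ≤ T) {x : Q → ℂ}
    (h : NoRel ξ k' T x) : NoRel ξ k T x := by
  intro F _ _ hF io R hR1 hR2 hR3
  refine h F (hF.trans hk) io R (fun y => (hR1 y).trans hk) (fun m => ?_) hR3
  obtain ⟨c, hc1, hc2⟩ := hR2 m
  refine ⟨fun b => if hb : (b : ℕ) < k then c ⟨b, hb⟩ else 0, fun b φ => ?_, ?_⟩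
  · by_cases hb : (b : ℕ) < k
    · simp only [dif_pos hb]
      exact (hc1 _ φ).trans (pow_le_pow_right₀ hT hk)
    · simp only [dif_neg hb, map_zero, norm_zero]
      positivity
  · rw [hc2]
    obtain ⟨d, rfl⟩ := Nat.exists_eq_add_of_le hk
    rw [Fin.sum_univ_add]
    have h1 : ∑ i : Fin d, ξ ((Fin.natAdd k i : Fin (k + d)) : ℕ) * io ((if hb : ((Fin.natAdd k i : Fin (k + d)) : ℕ) < k
        then c ⟨(Fin.natAdd k i : Fin (k + d)), hb⟩ else 0 : 𝓞 F) : F) = 0 := by
      refine Finset.sum_eq_zero fun i _ => ?_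
      rw [dif_neg (by simp)]
      simp
    rw [h1, add_zero]
    refine Finset.sum_congr rfl fun i _ => ?_
    beta_reduce
    rw [dif_pos (show ((Fin.castAdd d i : Fin (k + d)) : ℕ) < k from i.2)]
    rfl

variable {Y σ : Type} [Fintype Y] [DecidableEq Y] [Fintype σ] [DecidableEq σ]

/-- the rational point -/
noncomputable def pq (w : Option Y → ℤ) : Y → ℂ := fun y => (w (some y) : ℂ) / (w none : ℂ)

/-- the vector -/
def vec (a : ℤ × ℤ) (w : Option Y → ℤ) : Jx 1 Y → ℤ :=
  Sum.elim ![a.1, a.2] fun o => o.elim (w none) fun q => w (some q.1)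

theorem vec_pt (a : ℤ × ℤ) (w : Option Y → ℤ) (x : ℂ) : ptY x (betaC (vec a w)) = pq w := by
  funext y
  unfold ptY
  rw [Fin.sum_univ_one]
  simp [betaC, bv, dv, vec, pq]

theorem vec_inj {a a' : ℤ × ℤ} {w w' : Option Y → ℤ} (h : vec a w = vec a' w') : (w, a) = (w', a') := by
  have h1 : a.1 = a'.1 := congrFun h (Sum.inl 0)
  have h2 : a.2 = a'.2 := congrFun h (Sum.inl 1)
  have h3 : w = w' := by
    funext o
    rcases o with _ | y
    · exact congrFun h (Sum.inr none)
    · exact congrFun h (Sum.inr (some (y, 0)))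
  rw [h3, Prod.ext h1 h2]

theorem vec_root {K : Set (Y → ℂ)} {a : ℤ × ℤ} (ha : a.2 ≠ 0) {w : Option Y → ℤ} (hw : pq w ∈ K) :
    (-(a.1 : ℂ) / (a.2 : ℂ)) ∈ rtI K (vec a w) := by
  classical
  have ha' : (a.2 : ℂ) ≠ 0 := by exact_mod_cast ha
  unfold rtI
  rw [Finset.mem_filter, vec_pt]
  refine ⟨?_, hw⟩
  have hp : Pool.Agent.X255.NP.pol (av (vec a w)) = C (a.1 : ℂ) + C (a.2 : ℂ) * X := by
    unfold Pool.Agent.X255.NP.pol
    rw [Fin.sum_univ_two]
    simp [av, vec]
  rw [Multiset.mem_toFinset, hp, mem_roots]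
  · simp only [IsRoot.def, eval_add, eval_C, eval_mul, eval_X]
    field_simp
    ring
  · intro h
    have h1 : (C (a.1 : ℂ) + C (a.2 : ℂ) * X).coeff 1 = 0 := by rw [h, coeff_zero]
    rw [coeff_add, coeff_C, if_neg one_ne_zero, coeff_C_mul, coeff_X_one, zero_add, mul_one] at h1
    exact ha' h1

open scoped Classical in
/-- **Independent functions at almost all rational points.** -/
theorem marg {U : Set (Y → ℂ)} (hU : IsPreconnected U) (hUo : IsOpen U)
    {f : σ → (Y → ℂ) → ℂ} (hf : ∀ s, AnalyticOnNhd ℂ (f s) U) (h : Pool.Agent.N207.AX.Ind U f)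
    {K : Set (Y → ℂ)} (hK : IsClosed K) (hKU : K ⊆ U) (ξ : ℕ → ℂ) (N : ℕ) :
    ∃ T₀ : ℕ, ∀ T : ℕ, T₀ ≤ T →
      N * ((bx (Option Y) T).filter fun w => w none ≠ 0 ∧ pq w ∈ K ∧ ¬ NoRel ξ N T fun s => f s (pq w)).card ≤
        (bx (Option Y) T).card := by
  obtain ⟨ω, h1, -, h3⟩ := main_ind (g := 1) Nat.one_pos hU hUo hf h (fun _ => K) (fun _ => ⟨hK, hKU⟩) ξ
  obtain ⟨T₀, hT₀⟩ := eventually_atTop.1 (h1.eventually_ge_atTop (2 * N))
  refine ⟨max T₀ 1, fun T hT => ?_⟩
  rw [max_le_iff] at hT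
  have hω := hT₀ T hT.1
  have hT1 : (1 : ℝ) ≤ T := by exact_mod_cast hT.2
  have hb := h3 T
  set E := (bx (Option Y) T).filter fun w => w none ≠ 0 ∧ pq w ∈ K ∧ ¬ NoRel ξ N T fun s => f s (pq w) with hE
  set A : Finset (ℤ × ℤ) := Finset.Icc (-(T : ℤ)) T ×ˢ (Finset.Icc (-(T : ℤ)) T).erase 0 with hA
  set BB := (box 1 Y T).filter fun n => ¬ (av n (Fin.last 1) ≠ 0 ∧ (Pool.Agent.X255.NP.pol (av n)).Separable ∧
    dv n ≠ 0 ∧ NoRel ξ (ω T) T fun q : {x // x ∈ rtI K n} × σ => f q.2 (ptY q.1 (betaC n))) with hBB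
  have hcard : E.card * A.card ≤ BB.card := by
    rw [← Finset.card_product]
    refine Finset.card_le_card_of_injOn (fun p => vec p.2 p.1) ?_ ?_
    · rintro ⟨w, a⟩ hwa
      rw [Finset.mem_coe, Finset.mem_product] at hwa
      obtain ⟨hw, ha⟩ := hwa
      rw [hE, Finset.mem_filter] at hw
      rw [hA, Finset.mem_product, Finset.mem_erase, Finset.mem_Icc, Finset.mem_Icc] at ha
      obtain ⟨hw1, hw2, hw3, hw4⟩ := hw
      obtain ⟨ha1, ha2, ha3⟩ := ha
      rw [mem_bx] at hw1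
      rw [Finset.mem_coe, hBB, Finset.mem_filter]
      refine ⟨?_, ?_⟩
      · rw [mem_box]
        rintro (i | o)
        · fin_cases i
          · exact abs_le.2 ha1
          · exact abs_le.2 ha3
        · rcases o with _ | q
          · exact hw1 none
          · exact hw1 (some q.1)
      · rintro ⟨-, -, -, hno⟩
        apply hw4
        have h5 := norel_comp (by linarith) hno (fun s : σ => (⟨_, vec_root ha2 hw3⟩, s))
          (fun s s' hs => congrArg Prod.snd hs)
        have h6 := norel_mono (show N ≤ ω T by omega) hT1 h5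
        simp only [vec_pt] at h6
        exact h6
    · rintro ⟨w, a⟩ - ⟨w', a'⟩ - hh
      exact vec_inj hh
  have hAc : A.card = (2 * T + 1) * (2 * T) := by
    rw [hA, Finset.card_product, Finset.card_erase_of_mem (by simp), Int.card_Icc]
    have h1 : ((T : ℤ) + 1 - -(T : ℤ)).toNat = 2 * T + 1 := by omega
    rw [h1, Nat.add_sub_cancel]
  have hbox : (box 1 Y T).card = (2 * T + 1) ^ 2 * (bx (Option Y) T).card := by
    have e1 := box_card (g := 1) (Y := Y) T
    have e2 := bx_card (ι := Option Y) T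
    have e3 : ((box 1 Y T).card : ℝ) = (2 * (T : ℝ) + 1) ^ 2 * ((bx (Option Y) T).card : ℝ) := by
      rw [e1, e2, ← pow_add]
      congr 1
      simp only [Fintype.card_sum, Fintype.card_fin, Fintype.card_option, Fintype.card_prod, mul_one]
    exact_mod_cast e3
  rw [hbox] at hb
  have k1 : 2 * N * (E.card * ((2 * T + 1) * (2 * T))) ≤ (2 * T + 1) ^ 2 * (bx (Option Y) T).card := by
    calc 2 * N * (E.card * ((2 * T + 1) * (2 * T))) = 2 * N * (E.card * A.card) := by rw [hAc]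
      _ ≤ ω T * BB.card := Nat.mul_le_mul hω hcard
      _ ≤ _ := hb
  have k2 : (2 * T + 1) * (2 * N * E.card * (2 * T)) ≤ (2 * T + 1) * ((2 * T + 1) * (bx (Option Y) T).card) := by
    calc _ = 2 * N * (E.card * ((2 * T + 1) * (2 * T))) := by ring
      _ ≤ _ := k1
      _ = _ := by ring
  have k3 := Nat.le_of_mul_le_mul_left k2 (by omega)
  have k4 : (4 * T) * (N * E.card) ≤ (4 * T) * (bx (Option Y) T).card := by
    calc (4 * T) * (N * E.card) = 2 * N * E.card * (2 * T) := by ring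
      _ ≤ _ := k3
      _ ≤ _ := Nat.mul_le_mul_right _ (by omega)
  exact Nat.le_of_mul_le_mul_left k4 (by omega)

end Pool.Agent.V8H73.AZ
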