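import Pool.Agent.V8H73.AZ.Cov
import Pool.Agent.V8H73.AZ.Marg
import Pool.Agent.Y890.SP.Omega

/-!
# The zeros of almost all integral exponential polynomials
-/

set_option autoImplicit false
set_option linter.unusedSectionVars false

open Set Filter Topology MeasureTheory

namespace Pool.Agent.V8H73.AZ

open Pool.Agent.V8H73.RN

theorem diag (bad : ℕ → ℕ → ℕ) (tot : ℕ → ℕ) (h : ∀ m, ∃ T₀ : ℕ, ∀ T, T₀ ≤ T → m * bad m T ≤ tot T) :
    ∃ ω : ℕ → ℕ, Tendsto ω atTop atTop ∧ Monotone ω ∧ ∀ T, ω T * bad (ω T) T ≤ tot T := by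
  obtain ⟨ω, T₀, h1, h2, h3⟩ := Pool.Agent.Y890.SP.exists_omega
    (fun k T => k * bad k ⌊T⌋₊ ≤ tot ⌊T⌋₊) (by
      intro k
      obtain ⟨B₀, hB₀⟩ := h (k + 1)
      exact ⟨B₀, fun T hT => hB₀ _ (Nat.le_floor hT)⟩)
  refine ⟨fun B => if T₀ ≤ B then ω B else 0, ?_, ?_, ?_⟩
  · have h4 : (fun B : ℕ => if T₀ ≤ B then ω B else 0) =ᶠ[atTop] fun B : ℕ => ω B := by
      filter_upwards [eventually_ge_atTop ⌈T₀⌉₊] with B hB
      rw [if_pos (Nat.ceil_le.1 hB)]
    exact Tendsto.congr' h4.symm (h1.comp tendsto_natCast_atTop_atTop)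
  · intro B B' hBB
    have hc : (B : ℝ) ≤ B' := by exact_mod_cast hBB
    by_cases h4 : T₀ ≤ (B : ℝ)
    · simp only [if_pos h4, if_pos (h4.trans hc)]
      exact h2 hc
    · simp only [if_neg h4]
      exact Nat.zero_le _
  · intro B
    by_cases h4 : T₀ ≤ (B : ℝ)
    · simp only [if_pos h4]
      have h5 := (h3 B h4).2
      simp only [Nat.floor_natCast] at h5
      exact h5
    · simp only [if_neg h4, zero_mul]
      exact Nat.zero_le _

variable {M : Finset (ℕ × ℕ)}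

/-- the coefficients -/
noncomputable def cM (c : M → ℂ) (p : ℕ × ℕ) : ℂ := if h : p ∈ M then c ⟨p, h⟩ else 0

/-- the normalized coefficients -/
noncomputable def xq (h00 : (0, 0) ∈ M) (c : M → ℂ) : Xm M → ℂ := fun q =>
  c ⟨q.1, (Finset.mem_erase.1 q.2).2⟩ / c ⟨(0, 0), h00⟩

theorem cM_eq (h00 : (0, 0) ∈ M) {c : M → ℂ} (hc : c ⟨(0, 0), h00⟩ ≠ 0) {p : ℕ × ℕ} (hp : p ∈ M) :
    cM c p = c ⟨(0, 0), h00⟩ * cf (xq h00 c) p := by
  unfold cM cf
  rw [dif_pos hp]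
  by_cases h : p ∈ M.erase (0, 0)
  · rw [dif_pos h]
    unfold xq
    rw [mul_div_cancel₀ _ hc]
  · rw [dif_neg h, mul_one]
    have h1 : p = (0, 0) := by
      by_contra h2
      exact h (Finset.mem_erase.2 ⟨h2, hp⟩)
    subst h1
    rfl

theorem PP_eq (h00 : (0, 0) ∈ M) {c : M → ℂ} (hc : c ⟨(0, 0), h00⟩ ≠ 0) (z y : ℂ) :
    PP M (cM c) z y = c ⟨(0, 0), h00⟩ * PP M (cf (xq h00 c)) z y := by
  unfold PP
  rw [Finset.mul_sum]
  refine Finset.sum_congr rfl fun p hp => ?_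
  rw [cM_eq h00 hc hp]
  ring

theorem dd_eq (h00 : (0, 0) ∈ M) {c : M → ℂ} (hc : c ⟨(0, 0), h00⟩ ≠ 0) (z y : ℂ) :
    dd M (cM c) z y = c ⟨(0, 0), h00⟩ * dd M (cf (xq h00 c)) z y := by
  unfold dd
  rw [Finset.mul_sum]
  refine Finset.sum_congr rfl fun p hp => ?_
  rw [cM_eq h00 hc hp]
  ring

/-- no multiple zeros in the disc, and no relation between the zeros -/
def GoodZ (ξ : ℕ → ℂ) (k : ℕ) (T : ℝ) (n : M → ℤ) : Prop :=
  (∀ z : ℂ, ‖z‖ ≤ k → PP M (cM fun i => (n i : ℂ)) z (Complex.exp z) = 0 →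
    dd M (cM fun i => (n i : ℂ)) z (Complex.exp z) ≠ 0) ∧
  NoRel ξ k T fun z : {z : ℂ // ‖z‖ ≤ k ∧ PP M (cM fun i => (n i : ℂ)) z (Complex.exp z) = 0} => (z : ℂ)

/-- the real coefficients -/
noncomputable def cu (u : M → ℝ) : ℕ × ℕ → ℂ := cM fun i => (u i : ℂ)

theorem cu_cont (p : ℕ × ℕ) : Continuous fun u : M → ℝ => cu u p := by
  unfold cu cM
  by_cases h : p ∈ M
  · simp only [dif_pos h]
    exact Complex.continuous_ofReal.comp (continuous_apply _)
  · simp only [dif_neg h]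
    exact continuous_const

theorem cu_add (q : M) (u : M → ℝ) (t : ℝ) (p : ℕ × ℕ) :
    cu (u + t • Pi.single q (1 : ℝ)) p = cu u p + if p = q.1 then (t : ℂ) else 0 := by
  unfold cu cM
  by_cases h : p ∈ M
  · rw [dif_pos h, dif_pos h]
    by_cases hq : p = q.1
    · have h1 : (⟨p, h⟩ : M) = q := Subtype.ext hq
      rw [if_pos hq, h1]
      simp
    · have h1 : (⟨p, h⟩ : M) ≠ q := fun h2 => hq (congrArg Subtype.val h2)
      beta_reduce
      rw [if_neg hq, Pi.add_apply, Pi.smul_apply, Pi.single_eq_of_ne h1]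
      simp
  · rw [dif_neg h, dif_neg h, if_neg (fun h1 => h (by rw [h1]; exact q.2)), add_zero]

theorem bad_null_R (hM : Four M) (R : ℝ) : (volume : Measure (M → ℝ)) (Bad M cu R) = 0 := by
  exact bad_null_00 (𝕜 := ℝ) volume volume (fun t => (t : ℂ)) Complex.ofReal_injective hM.h00 hM.h10 cu_cont
    (v0 := Pi.single ⟨(0, 0), hM.h00⟩ 1) (v1 := Pi.single ⟨(1, 0), hM.h10⟩ 1)
    (fun x t p => cu_add ⟨(0, 0), hM.h00⟩ x t p) (fun x t p => cu_add ⟨(1, 0), hM.h10⟩ x t p) R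

theorem hyp_null (i : M) : (volume : Measure (M → ℝ)) {u | u i = 0} = 0 := by
  refine null_slices (𝕜 := ℝ) volume volume (isClosed_eq (continuous_apply i) continuous_const).measurableSet
    (Pi.single i 1) fun y => ?_
  refine Set.Subsingleton.countable fun t ht t' ht' => ?_
  simp only [Set.mem_ofPred_eq, Pi.add_apply, Pi.smul_apply, Pi.single_eq_same, smul_eq_mul, mul_one] at ht ht'
  linarith

/-- the indices -/
def eM (h00 : (0, 0) ∈ M) : M ≃ Option (Xm M) where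
  toFun p := if h : p.1 = (0, 0) then none else some ⟨p.1, Finset.mem_erase.2 ⟨h, p.2⟩⟩
  invFun o := o.elim ⟨(0, 0), h00⟩ fun q => ⟨q.1, (Finset.mem_erase.1 q.2).2⟩
  left_inv p := by
    beta_reduce
    by_cases h : p.1 = (0, 0)
    · rw [dif_pos h]
      exact Subtype.ext h.symm
    · rw [dif_neg h]
      rfl
  right_inv o := by
    rcases o with _ | q
    · simp
    · have h : q.1 ≠ (0, 0) := (Finset.mem_erase.1 q.2).1
      simp only [Option.elim_some, dif_neg h]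

open scoped Classical in
/-- the rational points, in the indices of `M` -/
theorem marg_M (h00 : (0, 0) ∈ M) {σ : Type} [Fintype σ] {U : Set (Xm M → ℂ)} (hU : IsPreconnected U) (hUo : IsOpen U)
    {f : σ → (Xm M → ℂ) → ℂ} (hf : ∀ s, AnalyticOnNhd ℂ (f s) U) (h : Pool.Agent.N207.AX.Ind U f)
    {K : Set (Xm M → ℂ)} (hK : IsClosed K) (hKU : K ⊆ U) (ξ : ℕ → ℂ) (N : ℕ) :
    ∃ T₀ : ℕ, ∀ T : ℕ, T₀ ≤ T →
      N * ((bx M T).filter fun n => n ⟨(0, 0), h00⟩ ≠ 0 ∧ xq h00 (fun i => (n i : ℂ)) ∈ K ∧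
        ¬ NoRel ξ N T fun s => f s (xq h00 fun i => (n i : ℂ))).card ≤ (bx M T).card := by
  obtain ⟨T₀, hT₀⟩ := marg hU hUo hf h hK hKU ξ N
  refine ⟨T₀, fun T hT => ?_⟩
  have h1 := hT₀ T hT
  have h2 : (bx (Option (Xm M)) T).card = (bx M T).card := by
    have e1 := bx_card (ι := Option (Xm M)) T
    have e2 := bx_card (ι := M) T
    rw [← Fintype.card_congr (eM h00)] at e1
    rw [← e2] at e1
    exact_mod_cast e1
  rw [h2] at h1
  refine (Nat.mul_le_mul_left _ ?_).trans h1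
  refine Finset.card_le_card_of_injOn (fun n => fun o => n ((eM h00).symm o)) ?_ ?_
  · intro n hn
    rw [Finset.mem_coe, Finset.mem_filter, mem_bx] at hn
    rw [Finset.mem_coe, Finset.mem_filter, mem_bx]
    exact ⟨fun o => hn.1 _, hn.2⟩
  · intro n _ n' _ hnn
    funext i
    have h3 := congrFun hnn (eM h00 i)
    simpa using h3

theorem xq_scale (h00 : (0, 0) ∈ M) (n : M → ℤ) {T : ℕ} (hT : 0 < T) :
    xq h00 (fun i => (((n i : ℝ) / T : ℝ) : ℂ)) = xq h00 fun i => (n i : ℂ) := by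
  funext q
  unfold xq
  have h1 : (T : ℂ) ≠ 0 := by exact_mod_cast hT.ne'
  push_cast
  rw [div_div_div_cancel_right₀ h1]

open scoped Classical in
/-- **One disc.** -/
theorem fixed (hM : Four M) (ξ : ℕ → ℂ) (m : ℕ) : ∃ T₀ : ℕ, ∀ T : ℕ, T₀ ≤ T →
    m * ((bx M T).filter fun n => ¬ GoodZ ξ m T n).card ≤ (bx M T).card := by
  let o : M := ⟨(0, 0), hM.h00⟩
  let Bd : Set (M → ℝ) := Metric.closedBall 0 1 ∩ (Bad M cu m ∪ {u | u o = 0})
  have hBdc : IsCompact Bd := (isCompact_closedBall _ _).inter_right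
    ((bad_closed cu_cont _).union (isClosed_eq (continuous_apply o) continuous_const))
  have hBd0 : volume Bd = 0 := measure_mono_null Set.inter_subset_right
    (measure_union_null (bad_null_R hM m) (hyp_null o))
  obtain ⟨r, hr, T₁, hT₁⟩ := near_null hBdc hBd0 (ε := 1 / (2 * ((m : ℝ) + 1))) (by positivity)
  let C : Set (M → ℝ) := Metric.closedBall 0 1 ∩ (Metric.thickening r Bd)ᶜ
  have hCc : IsCompact C := (isCompact_closedBall _ _).inter_right Metric.isOpen_thickening.isClosed_compl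
  have hCnB : ∀ u ∈ C, u ∉ Bd := fun u hu h => hu.2 (Metric.self_subset_thickening hr _ h)
  have hCo : ∀ u ∈ C, u o ≠ 0 := fun u hu h => hCnB u hu ⟨hu.1, Or.inr h⟩
  have hCc0 : ∀ u ∈ C, ((u o : ℝ) : ℂ) ≠ 0 := fun u hu => by exact_mod_cast hCo u hu
  let xr : (M → ℝ) → Xm M → ℂ := fun u => xq hM.h00 fun i => ((u i : ℝ) : ℂ)
  have hCb : ∀ u ∈ C, xr u ∉ Bad M cf m := by
    rintro u hu ⟨z, hz1, hz2, hz3⟩
    refine hCnB u hu ⟨hu.1, Or.inl ⟨z, hz1, ?_, ?_⟩⟩
    · unfold cu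
      rw [PP_eq hM.h00 (hCc0 u hu), hz2, mul_zero]
    · unfold cu
      rw [dd_eq hM.h00 (hCc0 u hu), hz3, mul_zero]
  have hex : ∀ u : M → ℝ, ∃ (δ : ℝ) (n : ℕ) (ζ : Fin n → (Xm M → ℂ) → ℂ), u ∈ C → 0 < δ ∧
      Br (Metric.ball (xr u) δ) ζ ∧ Pool.Agent.N207.AX.Ind (Metric.ball (xr u) δ) ζ ∧
      ∀ x ∈ Metric.ball (xr u) δ, ∀ z, ‖z‖ ≤ m → PP M (cf x) z (Complex.exp z) = 0 →
        ∃ i, ζ i x = z ∧ dd M (cf x) z (Complex.exp z) ≠ 0 := by
    intro u
    by_cases hu : u ∈ C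
    · obtain ⟨δ, n, ζ, h⟩ := patch_M hM (hCb u hu)
      exact ⟨δ, n, ζ, fun _ => h⟩
    · exact ⟨0, 0, Fin.elim0, fun h => absurd h hu⟩
  choose δ nn ζ hζ using hex
  have hxr : ∀ u ∈ C, ContinuousAt xr u := by
    intro u hu
    refine continuousAt_pi.2 fun q => ?_
    have h1 : ∀ i : M, ContinuousAt (fun u : M → ℝ => ((u i : ℝ) : ℂ)) u := fun i =>
      (Complex.continuous_ofReal.comp (continuous_apply i)).continuousAt
    exact (h1 _).div (h1 _) (hCc0 u hu)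
  obtain ⟨t, ht1, ht2⟩ := hCc.elim_nhds_subcover
    (fun u => {u' | u' o ≠ 0} ∩ xr ⁻¹' Metric.ball (xr u) (δ u / 2)) fun u hu =>
      Filter.inter_mem ((continuous_apply o).continuousAt.eventually_ne (hCo u hu))
        ((hxr u hu) (Metric.ball_mem_nhds _ (half_pos (hζ u hu).1)))
  set NN : ℕ := 2 * (m + 1) * (t.card + 1) + m with hNN
  have hmarg : ∀ u : M → ℝ, ∃ T₀ : ℕ, u ∈ t → ∀ T : ℕ, T₀ ≤ T →
      NN * ((bx M T).filter fun n => n o ≠ 0 ∧ xq hM.h00 (fun i => (n i : ℂ)) ∈ Metric.closedBall (xr u) (δ u / 2) ∧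
        ¬ NoRel ξ NN T fun s => ζ u s (xq hM.h00 fun i => (n i : ℂ))).card ≤ (bx M T).card := by
    intro u
    by_cases hu : u ∈ t
    · obtain ⟨h1, h2, h3, -⟩ := hζ u (ht1 u hu)
      obtain ⟨T₀, hT₀⟩ := marg_M hM.h00 (convex_ball (xr u) (δ u)).isPreconnected Metric.isOpen_ball h2.an h3
        (K := Metric.closedBall (xr u) (δ u / 2)) Metric.isClosed_closedBall
        (Metric.closedBall_subset_ball (half_lt_self h1)) ξ NN
      exact ⟨T₀, fun _ => hT₀⟩
    · exact ⟨0, fun h => absurd h hu⟩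
  choose T₂ hT₂ using hmarg
  refine ⟨max (max T₁ 1) (t.sup T₂), fun T hT => ?_⟩
  simp only [max_le_iff] at hT
  obtain ⟨⟨hTa, hTb⟩, hTc⟩ := hT
  have hTr : (1 : ℝ) ≤ T := by exact_mod_cast hTb
  have hTp : (0 : ℝ) < T := by linarith
  set near := (bx M T).filter fun n => (fun i => (n i : ℝ) / T) ∈ Metric.thickening r Bd with hnear
  let Ex : (M → ℝ) → Finset (M → ℤ) := fun u => (bx M T).filter fun n => n o ≠ 0 ∧
    xq hM.h00 (fun i => (n i : ℂ)) ∈ Metric.closedBall (xr u) (δ u / 2) ∧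
    ¬ NoRel ξ NN T fun s => ζ u s (xq hM.h00 fun i => (n i : ℂ))
  have hsub : ((bx M T).filter fun n => ¬ GoodZ ξ m T n) ⊆ near ∪ t.biUnion Ex := by
    intro n hn
    rw [Finset.mem_filter] at hn
    obtain ⟨hn1, hn2⟩ := hn
    rw [Finset.mem_union]
    by_cases hne : (fun i => (n i : ℝ) / T) ∈ Metric.thickening r Bd
    · left
      rw [hnear, Finset.mem_filter]
      exact ⟨hn1, hne⟩
    right
    have hvC : (fun i => (n i : ℝ) / T) ∈ C := by
      refine ⟨?_, hne⟩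
      rw [Metric.mem_closedBall, dist_zero_right, pi_norm_le_iff_of_nonneg zero_le_one]
      intro i
      rw [Real.norm_eq_abs, abs_div, abs_of_pos hTp, div_le_one hTp]
      have h1 := (mem_bx.1 hn1) i
      exact_mod_cast h1
    obtain ⟨u, hu, huv⟩ := Set.mem_iUnion₂.1 (ht2 hvC)
    obtain ⟨huv1, huv2⟩ := huv
    have hno : n o ≠ 0 := by
      intro h
      apply huv1
      change (n o : ℝ) / T = 0
      rw [h]
      simp
    have hxx : xr (fun i => (n i : ℝ) / T) = xq hM.h00 fun i => (n i : ℂ) := xq_scale hM.h00 n hTb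
    rw [Set.mem_preimage, hxx] at huv2
    refine Finset.mem_biUnion.2 ⟨u, hu, ?_⟩
    rw [Finset.mem_filter]
    refine ⟨hn1, hno, Metric.ball_subset_closedBall huv2, fun hnr => hn2 ?_⟩
    obtain ⟨h1, h2, h3, h4⟩ := hζ u (ht1 u hu)
    have hxb : (xq hM.h00 fun i => (n i : ℂ)) ∈ Metric.ball (xr u) (δ u) :=
      Metric.ball_subset_ball (by linarith) huv2
    have hnc : ((n o : ℤ) : ℂ) ≠ 0 := by exact_mod_cast hno
    have key : ∀ z : ℂ, ‖z‖ ≤ m → PP M (cM fun i => (n i : ℂ)) z (Complex.exp z) = 0 →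
        ∃ i, ζ u i (xq hM.h00 fun i => (n i : ℂ)) = z ∧ dd M (cM fun i => (n i : ℂ)) z (Complex.exp z) ≠ 0 := by
      intro z hz hz0
      rw [PP_eq hM.h00 hnc] at hz0
      obtain ⟨i, hi, hi'⟩ := h4 _ hxb z hz ((mul_eq_zero.1 hz0).resolve_left hnc)
      refine ⟨i, hi, ?_⟩
      rw [dd_eq hM.h00 hnc]
      exact mul_ne_zero hnc hi'
    constructor
    · intro z hz hz0
      obtain ⟨i, -, hi⟩ := key z hz hz0
      exact hi
    · choose e he using fun z : {z : ℂ // ‖z‖ ≤ m ∧ PP M (cM fun i => (n i : ℂ)) z (Complex.exp z) = 0} =>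
        key z.1 z.2.1 z.2.2
      have h5 := norel_comp hTp.le (norel_mono (show m ≤ NN by rw [hNN]; omega) hTr hnr) e
        fun z z' h => Subtype.ext (by rw [← (he z).1, ← (he z').1, h])
      have h6 : (fun z : {z : ℂ // ‖z‖ ≤ m ∧ PP M (cM fun i => (n i : ℂ)) z (Complex.exp z) = 0} => (z : ℂ)) =
          fun z => ζ u (e z) (xq hM.h00 fun i => (n i : ℂ)) := funext fun z => ((he z).1).symm
      rw [h6]
      exact h5
  have hnear' : (near.card : ℝ) ≤ 1 / (2 * ((m : ℝ) + 1)) * (bx M T).card := hT₁ T hTa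
  have hnear2 : 2 * (m + 1) * near.card ≤ (bx M T).card := by
    have h1 : (2 * ((m : ℝ) + 1)) * near.card ≤ (bx M T).card := by
      rw [one_div, inv_mul_eq_div, le_div_iff₀ (by positivity)] at hnear'
      linarith
    exact_mod_cast h1
  have hEx : 2 * (m + 1) * (t.biUnion Ex).card ≤ (bx M T).card := by
    have h1 : ∀ u ∈ t, NN * (Ex u).card ≤ (bx M T).card := fun u hu =>
      hT₂ u hu T ((Finset.le_sup (f := T₂) hu).trans hTc)
    have h2 : NN * (t.biUnion Ex).card ≤ t.card * (bx M T).card := by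
      calc NN * (t.biUnion Ex).card ≤ NN * ∑ u ∈ t, (Ex u).card := Nat.mul_le_mul_left _ Finset.card_biUnion_le
        _ = ∑ u ∈ t, NN * (Ex u).card := Finset.mul_sum _ _ _
        _ ≤ ∑ u ∈ t, (bx M T).card := Finset.sum_le_sum h1
        _ = _ := by rw [Finset.sum_const, smul_eq_mul]
    have h3 : (t.card + 1) * (2 * (m + 1) * (t.biUnion Ex).card) ≤ (t.card + 1) * (bx M T).card := by
      calc (t.card + 1) * (2 * (m + 1) * (t.biUnion Ex).card) = (2 * (m + 1) * (t.card + 1)) * (t.biUnion Ex).card := by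
            ring
        _ ≤ NN * (t.biUnion Ex).card := Nat.mul_le_mul_right _ (by rw [hNN]; omega)
        _ ≤ t.card * (bx M T).card := h2
        _ ≤ _ := Nat.mul_le_mul_right _ (by omega)
    exact Nat.le_of_mul_le_mul_left h3 (by omega)
  have hfin : ((bx M T).filter fun n => ¬ GoodZ ξ m T n).card ≤ near.card + (t.biUnion Ex).card :=
    (Finset.card_le_card hsub).trans (Finset.card_union_le _ _)
  have h1 : 2 * ((m + 1) * ((bx M T).filter fun n => ¬ GoodZ ξ m T n).card) ≤ 2 * (bx M T).card := by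
    calc 2 * ((m + 1) * ((bx M T).filter fun n => ¬ GoodZ ξ m T n).card) ≤
          2 * ((m + 1) * (near.card + (t.biUnion Ex).card)) := Nat.mul_le_mul_left _ (Nat.mul_le_mul_left _ hfin)
      _ = 2 * (m + 1) * near.card + 2 * (m + 1) * (t.biUnion Ex).card := by ring
      _ ≤ _ := by omega
  have h2 : m * ((bx M T).filter fun n => ¬ GoodZ ξ m T n).card ≤
      (m + 1) * ((bx M T).filter fun n => ¬ GoodZ ξ m T n).card := Nat.mul_le_mul_right _ (by omega)
  omega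

open scoped Classical in
/-- **All zeros in growing discs.** -/
theorem int_main (hM : Four M) (ξ : ℕ → ℂ) : ∃ ω : ℕ → ℕ, Tendsto ω atTop atTop ∧ Monotone ω ∧ ∀ T : ℕ,
    ω T * ((bx M T).filter fun n => ¬ GoodZ ξ (ω T) T n).card ≤ (bx M T).card :=
  diag (fun m T => ((bx M T).filter fun n => ¬ GoodZ ξ m T n).card) (fun T => (bx M T).card) (fixed hM ξ)

end Pool.Agent.V8H73.AZ
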