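import Pool.Agent.V8H73.AZ.Cov
import Pool.Agent.N207.NR.Main
import Pool.Agent.FinVol2.AN
import Pool.Agent.Y563.SE.Alg

/-!
# The zeros and the coefficients of almost all exponential polynomials are algebraically independent
-/

set_option autoImplicit false
set_option linter.unusedSectionVars false

open Set Filter Topology MeasureTheory

namespace Pool.Agent.V8H73.AZ

variable {M : Finset (ℕ × ℕ)}

theorem haar_X : (volume : Measure (Xm M → ℂ)).IsAddHaarMeasure := by
  rw [volume_pi]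
  infer_instance

theorem bad_null_M (hM : Four M) (R : ℝ) : (volume : Measure (Xm M → ℂ)) (Bad M cf R) = 0 := by
  have := haar_X (M := M)
  have q10 : ((1, 0) : ℕ × ℕ) ∈ M.erase (0, 0) := Finset.mem_erase.2 ⟨by simp, hM.h10⟩
  have q01 : ((0, 1) : ℕ × ℕ) ∈ M.erase (0, 0) := Finset.mem_erase.2 ⟨by simp, hM.h01⟩
  exact bad_null_10 (𝕜 := ℂ) volume volume id Function.injective_id hM.h10 hM.h01 cf_cont
    (v0 := Pi.single ⟨(0, 1), q01⟩ 1) (v1 := Pi.single ⟨(1, 0), q10⟩ 1)
    (fun x t p => cf_add x ⟨(0, 1), q01⟩ t) (fun x t p => cf_add x ⟨(1, 0), q10⟩ t) R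

/-- the functions are not zero on open sets -/
theorem null_rel {U : Set (Xm M → ℂ)} (hU : IsOpen U) (hc : IsPreconnected U) {n : ℕ}
    {ζ : Fin n → (Xm M → ℂ) → ℂ} (hζ : ∀ i, AnalyticOnNhd ℂ (ζ i) U) (hI : Pool.Agent.N207.AX.Ind U ζ)
    {P : MvPolynomial (Xm M ⊕ Fin n) ℂ} (hP : P ≠ 0) :
    (volume : Measure (Xm M → ℂ)) {x | x ∈ U ∧ MvPolynomial.eval (Sum.elim x fun i => ζ i x) P = 0} = 0 := by
  have := haar_X (M := M)
  have han : AnalyticOnNhd ℂ (fun x : Xm M → ℂ => MvPolynomial.eval (Sum.elim x fun i => ζ i x) P) U := by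
    have h1 : ∀ o : Xm M ⊕ Fin n, AnalyticOnNhd ℂ (fun x : Xm M → ℂ => (Sum.elim x fun i => ζ i x : _ → ℂ) o) U := by
      rintro (q | i)
      · exact (ContinuousLinearMap.proj (R := ℂ) (φ := fun _ : Xm M => ℂ) q).analyticOnNhd U
      · exact hζ i
    intro x hx
    induction P using MvPolynomial.induction_on with
    | C a =>
      simp only [MvPolynomial.eval_C]
      exact analyticAt_const
    | add p q hp hq =>
      clear hP
      simp only [map_add]
      by_cases hp0 : p = 0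
      · by_cases hq0 : q = 0
        · simp only [hp0, hq0, map_zero, add_zero]
          exact analyticAt_const
        · simp only [hp0, map_zero, zero_add]
          exact hq hq0
      · by_cases hq0 : q = 0
        · simp only [hq0, map_zero, add_zero]
          exact hp hp0
        · exact (hp hp0).add (hq hq0)
    | mul_X p o hp =>
      simp only [map_mul, MvPolynomial.eval_X]
      have hp0 : p ≠ 0 := fun h => hP (by rw [h, zero_mul])
      exact (hp hp0).mul (h1 o x hx)
  refine Pool.Agent.FinVol2.AN.analytic_null volume U hU _ han fun O hO hOU hOne => ?_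
  by_contra hcon
  push Not at hcon
  obtain ⟨t0, ht0⟩ := hOne
  refine hP (Pool.Agent.N207.NR.locInd hc hζ hI (hOU ht0) P ?_)
  filter_upwards [hO.mem_nhds ht0] with t ht using hcon t ht

/-- one disc -/
theorem ae_R (hM : Four M) (K : Subfield ℂ) [Countable K] (R : ℝ) : ∀ᵐ x : Xm M → ℂ, x ∉ Bad M cf R ∧
    ∀ s : Finset ℂ, (∀ z ∈ s, ‖z‖ ≤ R ∧ PP M (cf x) z (Complex.exp z) = 0) →
      AlgebraicIndependent K (Sum.elim x (fun z : s => (z : ℂ)) : Xm M ⊕ s → ℂ) := by
  have h1 : ∀ᵐ x : Xm M → ℂ, x ∉ Bad M cf R := by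
    rw [ae_iff]
    simp only [not_not]
    exact bad_null_M hM R
  have h2 : (volume : Measure (Xm M → ℂ)) {x | x ∉ Bad M cf R ∧ ¬ ∀ s : Finset ℂ,
      (∀ z ∈ s, ‖z‖ ≤ R ∧ PP M (cf x) z (Complex.exp z) = 0) →
      AlgebraicIndependent K (Sum.elim x (fun z : s => (z : ℂ)) : Xm M ⊕ s → ℂ)} = 0 := by
    refine measure_null_of_locally_null _ fun x0 hx0 => ?_
    obtain ⟨δ, n, ζ, hδ, hB, hI, hcov⟩ := patch_M hM hx0.1
    have hcount := Pool.Agent.Y563.SE.countable_mvPolynomial (Xm M ⊕ Fin n) K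
    refine ⟨⋃ p : {p : MvPolynomial (Xm M ⊕ Fin n) K // p ≠ 0}, {x | x ∈ Metric.ball x0 δ ∧
      MvPolynomial.eval (Sum.elim x fun i => ζ i x) (MvPolynomial.map (algebraMap K ℂ) p.1) = 0}, ?_, ?_⟩
    · rw [mem_nhdsWithin]
      refine ⟨Metric.ball x0 δ, Metric.isOpen_ball, Metric.mem_ball_self hδ, ?_⟩
      rintro x ⟨hxb, -, hx⟩
      push Not at hx
      obtain ⟨s, hs, hni⟩ := hx
      have hex : ∀ z : s, ∃ i, ζ i x = z := fun z => by
        obtain ⟨i, hi, -⟩ := hcov x hxb z.1 (hs z.1 z.2).1 (hs z.1 z.2).2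
        exact ⟨i, hi⟩
      choose e he using hex
      have hinj : Function.Injective e := fun z z' h => Subtype.ext (by rw [← he z, ← he z', h])
      have hni' : ¬ AlgebraicIndependent K (Sum.elim x (fun i => ζ i x) : Xm M ⊕ Fin n → ℂ) := by
        intro h
        apply hni
        have h3 := h.comp (Sum.map id e) (Function.injective_id.sumMap hinj)
        have h4 : (Sum.elim x (fun i => ζ i x) : Xm M ⊕ Fin n → ℂ) ∘ Sum.map id e =
            Sum.elim x (fun z : s => (z : ℂ)) := by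
          funext o
          rcases o with q | z
          · rfl
          · exact he z
        rwa [h4] at h3
      rw [algebraicIndependent_iff] at hni'
      push Not at hni'
      obtain ⟨p, hp1, hp2⟩ := hni'
      refine Set.mem_iUnion.2 ⟨⟨p, hp2⟩, hxb, ?_⟩
      rw [MvPolynomial.eval_map]
      exact hp1
    · refine measure_iUnion_null fun p => ?_
      refine null_rel Metric.isOpen_ball (convex_ball x0 δ).isPreconnected hB.an hI fun h => p.2 ?_
      exact MvPolynomial.map_injective _ (algebraMap K ℂ).injective (by rw [h, map_zero])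
  have h3 : ∀ᵐ x : Xm M → ℂ, ¬ (x ∉ Bad M cf R ∧ ¬ ∀ s : Finset ℂ,
      (∀ z ∈ s, ‖z‖ ≤ R ∧ PP M (cf x) z (Complex.exp z) = 0) →
      AlgebraicIndependent K (Sum.elim x (fun z : s => (z : ℂ)) : Xm M ⊕ s → ℂ)) := by
    rw [ae_iff]
    simp only [not_not]
    exact h2
  filter_upwards [h1, h3] with x hx1 hx3
  refine ⟨hx1, ?_⟩
  by_contra hcon
  exact hx3 ⟨hx1, hcon⟩

/-- **Almost all exponential polynomials.** -/
theorem ae_all (hM : Four M) (K : Subfield ℂ) [Countable K] : ∀ᵐ x : Xm M → ℂ,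
    (∀ z, PP M (cf x) z (Complex.exp z) = 0 → dd M (cf x) z (Complex.exp z) ≠ 0) ∧
    AlgebraicIndependent K (Sum.elim x (fun z : {z : ℂ // PP M (cf x) z (Complex.exp z) = 0} => (z : ℂ))) := by
  classical
  have h1 := ae_all_iff.2 fun R : ℕ => ae_R hM K (R : ℝ)
  filter_upwards [h1] with x hx
  constructor
  · intro z hz hd
    exact (hx ⌈‖z‖⌉₊).1 ⟨z, Nat.le_ceil _, hz, hd⟩
  · refine algebraicIndependent_of_finite_type fun t ht => ?_
    let s : Finset ℂ := (ht.toFinset.preimage Sum.inr Sum.inr_injective.injOn).image Subtype.val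
    have hs : ∀ z : {z : ℂ // PP M (cf x) z (Complex.exp z) = 0}, Sum.inr z ∈ t → z.1 ∈ s := by
      intro z hz
      refine Finset.mem_image.2 ⟨z, ?_, rfl⟩
      rw [Finset.mem_preimage, Set.Finite.mem_toFinset]
      exact hz
    have hs2 : ∀ z ∈ s, ‖z‖ ≤ ((s.sup fun z => ⌈‖z‖⌉₊ : ℕ) : ℝ) ∧ PP M (cf x) z (Complex.exp z) = 0 := by
      intro z hz
      constructor
      · refine (Nat.le_ceil _).trans ?_
        exact_mod_cast Finset.le_sup (f := fun z : ℂ => ⌈‖z‖⌉₊) hz
      · obtain ⟨z', -, rfl⟩ := Finset.mem_image.1 hz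
        exact z'.2
    have h2 := (hx (s.sup fun z => ⌈‖z‖⌉₊)).2 s hs2
    let g : t → Xm M ⊕ s := fun i => match i with
      | ⟨Sum.inl q, _⟩ => Sum.inl q
      | ⟨Sum.inr z, h⟩ => Sum.inr ⟨z.1, hs z h⟩
    have hg : Function.Injective g := by
      rintro ⟨a | a, ha⟩ ⟨b | b, hb⟩ h
      · simpa [g] using h
      · simp [g] at h
      · simp [g] at h
      · simp only [g, Sum.inr.injEq, Subtype.mk.injEq] at h
        have h3 : a = b := Subtype.ext h
        subst h3
        rfl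
    have h3 := h2.comp g hg
    have h4 : ((Sum.elim x (fun z : s => (z : ℂ)) : Xm M ⊕ s → ℂ) ∘ g) = fun i : t =>
        (Sum.elim x (fun z : {z : ℂ // PP M (cf x) z (Complex.exp z) = 0} => (z : ℂ)) : _ → ℂ) i := by
      funext i
      rcases i with ⟨a | a, ha⟩
      · rfl
      · rfl
    rwa [h4] at h3

end Pool.Agent.V8H73.AZ
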