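import Pool.Agent.V8H73.AZ.Core

/-!
# Linear relations between points of a curve: the contradiction
-/

set_option autoImplicit false
set_option linter.unusedSectionVars false

open Polynomial

namespace Pool.Agent.V8H73.AZ

section ring

variable {A B : Type*} [CommRing A] [CommRing B]

/-- the value `∑ c_p z^a y^b` -/
def PP (M : Finset (ℕ × ℕ)) (c : ℕ × ℕ → A) (z y : A) : A :=
  ∑ p ∈ M, c p * z ^ p.1 * y ^ p.2

/-- the derivative along the exponential curve -/
def dd (M : Finset (ℕ × ℕ)) (c : ℕ × ℕ → A) (z y : A) : A :=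
  ∑ p ∈ M, c p * ((p.1 : A) * z ^ (p.1 - 1) * y ^ p.2 + z ^ p.1 * ((p.2 : A) * y ^ p.2))

/-- the polynomial in the second variable -/
noncomputable def polyY (M : Finset (ℕ × ℕ)) (c : ℕ × ℕ → A) (z : A) : A[X] :=
  ∑ p ∈ M, C (c p * z ^ p.1) * X ^ p.2

/-- the polynomial in the first variable -/
noncomputable def polyZ (M : Finset (ℕ × ℕ)) (c : ℕ × ℕ → A) (y : A) : A[X] :=
  ∑ p ∈ M, C (c p * y ^ p.2) * X ^ p.1

variable {M : Finset (ℕ × ℕ)} {c : ℕ × ℕ → A}

theorem polyY_eval (z y : A) : (polyY M c z).eval y = PP M c z y := by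
  simp [polyY, PP, eval_finsetSum]

theorem polyZ_eval (z y : A) : (polyZ M c y).eval z = PP M c z y := by
  unfold polyZ PP
  rw [eval_finsetSum]
  refine Finset.sum_congr rfl fun p _ => ?_
  simp only [eval_mul, eval_C, eval_pow, eval_X]
  ring

theorem PP_map (φ : A →+* B) (z y : A) : φ (PP M c z y) = PP M (fun p => φ (c p)) (φ z) (φ y) := by
  simp [PP]

theorem dd_map (φ : A →+* B) (z y : A) : φ (dd M c z y) = dd M (fun p => φ (c p)) (φ z) (φ y) := by
  simp [dd]

theorem polyY_map (φ : A →+* B) (z : A) : (polyY M c z).map φ = polyY M (fun p => φ (c p)) (φ z) := by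
  simp [polyY, Polynomial.map_sum]

theorem polyZ_map (φ : A →+* B) (y : A) : (polyZ M c y).map φ = polyZ M (fun p => φ (c p)) (φ y) := by
  simp [polyZ, Polynomial.map_sum]

end ring

variable {k F : Type*} [Field k] [Field F] [Algebra k F] {M : Finset (ℕ × ℕ)} {c : ℕ × ℕ → k}

theorem polyY_coeff (z : F) (δ : Derivation k F F) (h : δ z = 0) (i : ℕ) : δ ((polyY M (fun p => algebraMap k F (c p)) z).coeff i) = 0 := by
  unfold polyY
  rw [finsetSum_coeff, map_sum]
  refine Finset.sum_eq_zero fun p _ => ?_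
  rw [coeff_C_mul, coeff_X_pow]
  split_ifs
  · rw [mul_one, Derivation.leibniz, Derivation.leibniz_pow, h, Derivation.map_algebraMap]
    simp
  · rw [mul_zero, map_zero]

theorem polyZ_coeff (y : F) (δ : Derivation k F F) (h : δ y = 0) (i : ℕ) : δ ((polyZ M (fun p => algebraMap k F (c p)) y).coeff i) = 0 := by
  unfold polyZ
  rw [finsetSum_coeff, map_sum]
  refine Finset.sum_eq_zero fun p _ => ?_
  rw [coeff_C_mul, coeff_X_pow]
  split_ifs
  · rw [mul_one, Derivation.leibniz, Derivation.leibniz_pow, h, Derivation.map_algebraMap]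
    simp
  · rw [mul_zero, map_zero]

theorem over_y [CharZero F] {z y : F} (hP : PP M (fun p => algebraMap k F (c p)) z y = 0) (hY : polyY M (fun p => algebraMap k F (c p)) z ≠ 0) : Over k z y := by
  intro δ hδ
  exact der_root δ _ le_rfl hY (polyY_coeff z δ hδ) (by rw [polyY_eval, hP])

theorem dd_der {z y : F} (δ : Derivation k F F) (hz : δ z = 0) (hy : δ y = 0) : δ (dd M (fun p => algebraMap k F (c p)) z y) = 0 := by
  unfold dd
  rw [map_sum]
  refine Finset.sum_eq_zero fun p _ => ?_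
  simp [Derivation.leibniz, Derivation.leibniz_pow, hz, hy]

theorem over_w {z y w : F} {m : k} (hm : m ≠ 0) (hy : Over k z y) (hd : w * dd M (fun p => algebraMap k F (c p)) z y = algebraMap k F m) :
    Over k z w := by
  intro δ hδ
  have h1 := congrArg δ hd
  rw [Derivation.leibniz, dd_der δ hδ (hy δ hδ), Derivation.map_algebraMap, smul_zero, zero_add, smul_eq_mul] at h1
  refine (mul_eq_zero.1 h1).resolve_left fun h2 => ?_
  rw [h2, mul_zero] at hd
  exact (map_ne_zero_iff _ (algebraMap k F).injective).2 hm hd.symm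

variable {ι : Type*} [Fintype ι] [DecidableEq ι]

/-- **No linear relation.** -/
theorem contra [CharZero k] [CharZero F] {z : ι → F} (hz : AlgebraicIndependent k z) {a b : ι} (hab : a ≠ b) {m : ι → k}
    {m' : k} (hm : ∀ i, m i ≠ 0) (hm' : m' ≠ 0) {z' : F} {C : k}
    (hC : ∑ i, algebraMap k F (m i) * z i + algebraMap k F m' * z' = algebraMap k F C)
    {y w : ι → F} {y' w' : F} (hP : ∀ i, PP M (fun p => algebraMap k F (c p)) (z i) (y i) = 0) (hP' : PP M (fun p => algebraMap k F (c p)) z' y' = 0)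
    (hd : ∀ i, w i * dd M (fun p => algebraMap k F (c p)) (z i) (y i) = algebraMap k F (m i)) (hd' : w' * dd M (fun p => algebraMap k F (c p)) z' y' = algebraMap k F m')
    (hY : ∀ i, polyY M (fun p => algebraMap k F (c p)) (z i) ≠ 0) (hY' : polyY M (fun p => algebraMap k F (c p)) z' ≠ 0) (hZ' : polyZ M (fun p => algebraMap k F (c p)) y' ≠ 0)
    (R1 : ∑ i, w i + w' = 0) (R2 : ∑ i, w i * z i + w' * z' = 0)
    (R3 : ∑ i, w i * y i + w' * y' = 0) (R4 : ∑ i, w i * (z i * y i) + w' * (z' * y') = 0) : False := by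
  have hw0 : w' ≠ 0 := by
    intro h
    rw [h, zero_mul] at hd'
    exact (map_ne_zero_iff _ (algebraMap k F).injective).2 hm' hd'.symm
  have hy := fun i => over_y (hP i) (hY i)
  have hy' := over_y hP' hY'
  obtain ⟨h1, D, hD⟩ := core hz hab hm hm' hC hy (fun i => over_w (hm i) (hy i) (hd i)) hy' (over_w hm' hy' hd') hw0
    R1 R2 R3 R4
  exact hZ' (poly_zero D hD _ le_rfl (polyZ_coeff y' D (h1 D)) (by rw [polyZ_eval, hP']))

end Pool.Agent.V8H73.AZ
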