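import Mathlib
import Pool.Agent.H135R2.VS.Der

/-!
# Linear relations between points of a curve: derivations
-/

set_option autoImplicit false
set_option linter.unusedSectionVars false

open Polynomial

namespace Pool.Agent.V8H73.AZ

variable {k F : Type*} [Field k] [Field F] [Algebra k F]

theorem der_eval (δ : Derivation k F F) (Q : F[X]) (hc : ∀ i, δ (Q.coeff i) = 0) (y : F) :
    δ (Q.eval y) = Q.derivative.eval y * δ y := by
  rw [Polynomial.eval_eq_sum_range, map_sum, Polynomial.derivative_eval, Polynomial.sum_over_range _ (by simp),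
    Finset.sum_mul]
  refine Finset.sum_congr rfl fun i _ => ?_
  rw [Derivation.leibniz, hc, smul_zero, add_zero, Derivation.leibniz_pow]
  simp only [smul_eq_mul, nsmul_eq_mul]
  ring

theorem der_coeff_derivative (δ : Derivation k F F) {Q : F[X]} (hc : ∀ i, δ (Q.coeff i) = 0) (i : ℕ) :
    δ (Q.derivative.coeff i) = 0 := by
  rw [Polynomial.coeff_derivative, Derivation.leibniz, hc, smul_zero, add_zero]
  have h1 : δ ((i : F) + 1) = 0 := by
    have h2 : ((i : F) + 1) = ((i + 1 : ℕ) : F) := by push_cast; ring
    rw [h2, Derivation.map_natCast]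
  rw [h1, smul_zero]

/-- a derivation kills the roots of nonzero polynomials whose coefficients it kills -/
theorem der_root [CharZero F] (δ : Derivation k F F) {y : F} : ∀ (n : ℕ) {Q : F[X]}, Q.natDegree ≤ n → Q ≠ 0 →
    (∀ i, δ (Q.coeff i) = 0) → Q.eval y = 0 → δ y = 0 := by
  intro n
  induction n with
  | zero =>
    intro Q hd hQ hc hy
    rw [Nat.le_zero] at hd
    rw [Polynomial.eq_C_of_natDegree_eq_zero hd] at hy hQ
    rw [Polynomial.eval_C] at hy
    rw [hy, Polynomial.C_0] at hQ
    exact absurd rfl hQ
  | succ n ih =>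
    intro Q hd hQ hc hy
    have h1 := der_eval δ Q hc y
    rw [hy, map_zero] at h1
    rcases mul_eq_zero.1 h1.symm with h2 | h2
    · by_cases h3 : Q.derivative = 0
      · have h4 := Polynomial.derivative_eq_zero.1 h3
        rw [Polynomial.eq_C_of_natDegree_eq_zero h4] at hy hQ
        rw [Polynomial.eval_C] at hy
        rw [hy, Polynomial.C_0] at hQ
        exact absurd rfl hQ
      · refine ih ?_ h3 (der_coeff_derivative δ hc) h2
        have := Polynomial.natDegree_derivative_le Q
        omega
    · exact h2

/-- a polynomial with constant coefficients which vanishes at an element with derivative 1 is zero -/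
theorem poly_zero [CharZero F] (D : Derivation k F F) {z : F} (hz : D z = 1) : ∀ (n : ℕ) {Q : F[X]}, Q.natDegree ≤ n →
    (∀ i, D (Q.coeff i) = 0) → Q.eval z = 0 → Q = 0 := by
  intro n
  induction n with
  | zero =>
    intro Q hd hc hy
    rw [Nat.le_zero] at hd
    rw [Polynomial.eq_C_of_natDegree_eq_zero hd] at hy ⊢
    rw [Polynomial.eval_C] at hy
    rw [hy, Polynomial.C_0]
  | succ n ih =>
    intro Q hd hc hy
    have h1 := der_eval D Q hc z
    rw [hy, map_zero, hz, mul_one] at h1
    have h3 : Q.derivative = 0 := by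
      refine ih ?_ (der_coeff_derivative D hc) h1.symm
      have := Polynomial.natDegree_derivative_le Q
      omega
    have h4 := Polynomial.derivative_eq_zero.1 h3
    rw [Polynomial.eq_C_of_natDegree_eq_zero h4] at hy ⊢
    rw [Polynomial.eval_C] at hy
    rw [hy, Polynomial.C_0]

/-- `u` is algebraic over `k(z)` -/
def Over (k : Type*) {F : Type*} [Field k] [Field F] [Algebra k F] (z u : F) : Prop :=
  ∀ δ : Derivation k F F, δ z = 0 → δ u = 0

theorem Over.mul {z u v : F} (hu : Over k z u) (hv : Over k z v) : Over k z (u * v) := by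
  intro δ h
  rw [Derivation.leibniz, hu δ h, hv δ h, smul_zero, smul_zero, add_zero]

theorem over_self (z : F) : Over k z z := fun _ h => h

/-- the chain rule -/
theorem Over.chain {z u : F} (hu : Over k z u) {D : Derivation k F F} (hD : D z = 1) (δ : Derivation k F F) :
    δ u = δ z * D u := by
  have h1 : (δ - (δ z) • D) u = 0 := by
    apply hu
    rw [Derivation.sub_apply, Derivation.smul_apply, hD, smul_eq_mul, mul_one, sub_self]
  rw [Derivation.sub_apply, Derivation.smul_apply, smul_eq_mul, sub_eq_zero] at h1
  exact h1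

theorem Over.der {z u : F} (hu : Over k z u) {D : Derivation k F F} (hD : D z = 1) : Over k z (D u) := by
  intro δ hδ
  have h1 : (⁅δ, D⁆ : Derivation k F F) u = 0 := by
    apply hu
    rw [Derivation.commutator_apply, hD, hδ, map_zero, Derivation.map_one_eq_zero, sub_zero]
  rw [Derivation.commutator_apply, hu δ hδ, map_zero, sub_zero] at h1
  exact h1

variable {ι : Type*} [Fintype ι] [DecidableEq ι]

/-- the main step -/
theorem key [CharZero k] {z : ι → F} (hz : AlgebraicIndependent k z) {a b : ι} (hab : a ≠ b) {m : ι → k} {m' : k}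
    (hm : ∀ i, m i ≠ 0) (hm' : m' ≠ 0) {z' : F} {C : k}
    (hC : ∑ i, algebraMap k F (m i) * z i + algebraMap k F m' * z' = algebraMap k F C)
    {D : Derivation k F F} (hD : D z' = 1) {u : ι → F} {u' : F} (hu : ∀ i, Over k (z i) (u i)) (hu' : Over k z' u')
    (hR : ∑ i, u i + u' = 0) (δ : Derivation k F F) : δ (D u') = 0 := by
  have hder : ∀ j : ι, ∃ E : Derivation k F F, ∀ i, E (z i) = if i = j then 1 else 0 := fun j =>
    Pool.Agent.H135R2.VS.exists_der hz _
  choose E hE using hder
  have hinj : Function.Injective (algebraMap k F) := (algebraMap k F).injective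
  have hF' : algebraMap k F m' ≠ 0 := (map_ne_zero_iff _ hinj).2 hm'
  have hEz : ∀ j, algebraMap k F m' * E j z' = - algebraMap k F (m j) := by
    intro j
    have h1 := congrArg (E j) hC
    rw [map_add, map_sum, Derivation.map_algebraMap] at h1
    rw [Finset.sum_eq_single j (fun i _ hij => by
        rw [Derivation.leibniz, Derivation.map_algebraMap, hE, if_neg hij]; simp) (fun h => absurd (Finset.mem_univ j) h),
      Derivation.leibniz, Derivation.leibniz, Derivation.map_algebraMap, Derivation.map_algebraMap, hE,
      if_pos rfl] at h1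
    simp only [smul_eq_mul, mul_one, mul_zero, add_zero] at h1
    linear_combination h1
  have hrel : ∀ j, D u' = (algebraMap k F m' / algebraMap k F (m j)) * E j (u j) := by
    intro j
    have hFj : algebraMap k F (m j) ≠ 0 := (map_ne_zero_iff _ hinj).2 (hm j)
    have h1 := congrArg (E j) hR
    rw [map_add, map_sum, map_zero] at h1
    rw [Finset.sum_eq_single j (fun i _ hij => hu i (E j) (by rw [hE, if_neg hij]))
      (fun h => absurd (Finset.mem_univ j) h)] at h1
    have h2 := hu'.chain hD (E j)
    have h3 := hEz j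
    rw [h2] at h1
    field_simp
    linear_combination h3 * D u' - algebraMap k F m' * h1
  have hover : ∀ j, Over k (z j) (D u') := by
    intro j δ hδ
    rw [hrel j, Derivation.leibniz, (hu j).der (by rw [hE, if_pos rfl]) δ hδ, smul_zero, zero_add]
    have h1 : algebraMap k F m' / algebraMap k F (m j) = algebraMap k F (m' / m j) := by rw [map_div₀]
    rw [h1, Derivation.map_algebraMap, smul_zero]
  have h1 := (hover a).chain (D := E a) (by rw [hE, if_pos rfl]) δ
  rw [h1, hover b (E a) (by rw [hE, if_neg hab.symm]), mul_zero]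

/-- **The core.** -/
theorem core [CharZero k] [CharZero F] {z : ι → F} (hz : AlgebraicIndependent k z) {a b : ι} (hab : a ≠ b) {m : ι → k}
    {m' : k} (hm : ∀ i, m i ≠ 0) (hm' : m' ≠ 0) {z' : F} {C : k}
    (hC : ∑ i, algebraMap k F (m i) * z i + algebraMap k F m' * z' = algebraMap k F C)
    {y w : ι → F} {y' w' : F} (hy : ∀ i, Over k (z i) (y i)) (hw : ∀ i, Over k (z i) (w i)) (hy' : Over k z' y')
    (hw' : Over k z' w') (hw0 : w' ≠ 0) (R1 : ∑ i, w i + w' = 0) (R2 : ∑ i, w i * z i + w' * z' = 0)
    (R3 : ∑ i, w i * y i + w' * y' = 0) (R4 : ∑ i, w i * (z i * y i) + w' * (z' * y') = 0) :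
    (∀ δ : Derivation k F F, δ y' = 0) ∧ ∃ D : Derivation k F F, D z' = 1 := by
  have hinj : Function.Injective (algebraMap k F) := (algebraMap k F).injective
  have hF' : algebraMap k F m' ≠ 0 := (map_ne_zero_iff _ hinj).2 hm'
  have hFa : algebraMap k F (m a) ≠ 0 := (map_ne_zero_iff _ hinj).2 (hm a)
  obtain ⟨D, hD⟩ : ∃ D : Derivation k F F, D z' = 1 := by
    obtain ⟨E, hE⟩ := Pool.Agent.H135R2.VS.exists_der hz (fun i => if i = a then (1 : F) else 0)
    have h1 := congrArg E hC
    rw [map_add, map_sum, Derivation.map_algebraMap] at h1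
    rw [Finset.sum_eq_single a (fun i _ hij => by
        rw [Derivation.leibniz, Derivation.map_algebraMap, hE, if_neg hij]; simp) (fun h => absurd (Finset.mem_univ a) h),
      Derivation.leibniz, Derivation.leibniz, Derivation.map_algebraMap, Derivation.map_algebraMap, hE,
      if_pos rfl] at h1
    simp only [smul_eq_mul, mul_one, mul_zero, add_zero] at h1
    refine ⟨(-(algebraMap k F m' / algebraMap k F (m a))) • E, ?_⟩
    rw [Derivation.smul_apply, smul_eq_mul]
    have h3 : E z' = - algebraMap k F (m a) / algebraMap k F m' := by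
      field_simp
      linear_combination h1
    rw [h3]
    field_simp
  have q1 : ∀ δ : Derivation k F F, δ (D w') = 0 := key hz hab hm hm' hC hD hw hw' R1
  have q2 : ∀ δ : Derivation k F F, δ (D (w' * z')) = 0 :=
    key hz hab hm hm' hC hD (fun i => (hw i).mul (over_self _)) (hw'.mul (over_self _)) R2
  have q3 : ∀ δ : Derivation k F F, δ (D (w' * y')) = 0 :=
    key hz hab hm hm' hC hD (fun i => (hw i).mul (hy i)) (hw'.mul hy') R3
  have q4 : ∀ δ : Derivation k F F, δ (D (w' * (z' * y'))) = 0 :=
    key hz hab hm hm' hC hD (fun i => (hw i).mul ((over_self _).mul (hy i))) (hw'.mul ((over_self _).mul hy')) R4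
  have p1 : D w' = 0 := by
    have h1 := q2 D
    rw [Derivation.leibniz, hD, smul_eq_mul, smul_eq_mul, mul_one, map_add, Derivation.leibniz, q1 D, hD] at h1
    simp only [smul_eq_mul, mul_zero, mul_one, zero_add] at h1
    have h2 : (2 : F) * D w' = 0 := by linear_combination h1
    exact (mul_eq_zero.1 h2).resolve_left two_ne_zero
  have p2 : D (D y') = 0 := by
    have h1 := q3 D
    rw [Derivation.leibniz, p1] at h1
    simp only [smul_eq_mul, mul_zero, add_zero] at h1
    rw [Derivation.leibniz, p1] at h1
    simp only [smul_eq_mul, mul_zero, add_zero] at h1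
    exact (mul_eq_zero.1 h1).resolve_left hw0
  have p3 : D y' = 0 := by
    have h1 := q4 D
    rw [Derivation.leibniz, p1] at h1
    simp only [smul_eq_mul, mul_zero, add_zero] at h1
    rw [Derivation.leibniz, p1] at h1
    simp only [smul_eq_mul, mul_zero, add_zero] at h1
    have h2 := (mul_eq_zero.1 h1).resolve_left hw0
    rw [Derivation.leibniz, hD] at h2
    simp only [smul_eq_mul, mul_one] at h2
    rw [map_add, Derivation.leibniz, hD, p2] at h2
    simp only [smul_eq_mul, mul_one, mul_zero, zero_add] at h2
    have h3 : (2 : F) * D y' = 0 := by linear_combination h2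
    exact (mul_eq_zero.1 h3).resolve_left two_ne_zero
  refine ⟨fun δ => ?_, D, hD⟩
  rw [hy'.chain hD δ, p3, mul_zero]

end Pool.Agent.V8H73.AZ
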