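import Pool.Agent.V8H73.AZ.Rel
import Pool.Agent.Y563.SE.Null

/-!
# Exponential polynomials with multiple zeros are a null set
-/

set_option autoImplicit false
set_option linter.unusedSectionVars false

open MeasureTheory Set Filter Topology

namespace Pool.Agent.V8H73.AZ

/-- a measurable set all of whose slices in one direction are countable is a null set -/
theorem null_slices {𝕜 F : Type*} [RCLike 𝕜] [NormedAddCommGroup F] [NormedSpace 𝕜 F] [MeasurableSpace F] [BorelSpace F]
    [LocallyCompactSpace F] (μ : Measure 𝕜) [μ.IsAddHaarMeasure] [NullSingletonClass μ] (ν : Measure F) [ν.IsAddHaarMeasure]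
    {S : Set F} (hS : MeasurableSet S) (v : F) (h : ∀ y, {t : 𝕜 | y + t • v ∈ S}.Countable) : ν S = 0 := by
  have h1 := ae_mem_of_ae_add_linearMap_mem (LinearMap.toSpanSingleton 𝕜 F v) μ ν (s := Sᶜ) hS.compl fun y => by
    filter_upwards [(h y).ae_notMem μ] with t ht
    intro h2
    exact ht h2
  have h2 : {x | ¬ x ∈ Sᶜ} = S := by
    ext x
    simp
  rw [ae_iff, h2] at h1
  exact h1

variable {F : Type*} [NormedAddCommGroup F]

/-- the parameters with a multiple zero in the disc -/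
def Bad (M : Finset (ℕ × ℕ)) (cc : F → ℕ × ℕ → ℂ) (R : ℝ) : Set F :=
  {x | ∃ z : ℂ, ‖z‖ ≤ R ∧ PP M (cc x) z (Complex.exp z) = 0 ∧ dd M (cc x) z (Complex.exp z) = 0}

theorem PP_cont {M : Finset (ℕ × ℕ)} {cc : F → ℕ × ℕ → ℂ} (h : ∀ p, Continuous fun x => cc x p) :
    Continuous fun v : F × ℂ => PP M (cc v.1) v.2 (Complex.exp v.2) := by
  unfold PP
  refine continuous_finsetSum _ fun p _ => ?_
  exact (((h p).comp continuous_fst).mul (continuous_snd.pow _)).mul ((Complex.continuous_exp.comp continuous_snd).pow _)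

theorem dd_cont {M : Finset (ℕ × ℕ)} {cc : F → ℕ × ℕ → ℂ} (h : ∀ p, Continuous fun x => cc x p) :
    Continuous fun v : F × ℂ => dd M (cc v.1) v.2 (Complex.exp v.2) := by
  unfold dd
  refine continuous_finsetSum _ fun p _ => ?_
  refine ((h p).comp continuous_fst).mul ?_
  have h1 : Continuous fun v : F × ℂ => Complex.exp v.2 ^ p.2 := (Complex.continuous_exp.comp continuous_snd).pow _
  exact ((continuous_const.mul (continuous_snd.pow _)).mul h1).add ((continuous_snd.pow _).mul (continuous_const.mul h1))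

theorem bad_closed {M : Finset (ℕ × ℕ)} {cc : F → ℕ × ℕ → ℂ} (h : ∀ p, Continuous fun x => cc x p) (R : ℝ) :
    IsClosed (Bad M cc R) := by
  have : CompactSpace (Metric.closedBall (0 : ℂ) R) := isCompact_iff_compactSpace.1 (isCompact_closedBall 0 R)
  let g : F × Metric.closedBall (0 : ℂ) R → F × ℂ := fun v => (v.1, v.2.1)
  have hg : Continuous g := continuous_fst.prodMk (continuous_subtype_val.comp continuous_snd)
  have h1 : IsClosed {v : F × Metric.closedBall (0 : ℂ) R |
      PP M (cc v.1) v.2.1 (Complex.exp v.2.1) = 0 ∧ dd M (cc v.1) v.2.1 (Complex.exp v.2.1) = 0} :=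
    (isClosed_eq ((PP_cont h).comp hg) continuous_const).inter (isClosed_eq ((dd_cont h).comp hg) continuous_const)
  have h2 := isClosedMap_fst_of_compactSpace (X := F) (Y := Metric.closedBall (0 : ℂ) R) _ h1
  have h3 : Bad M cc R = Prod.fst '' {v : F × Metric.closedBall (0 : ℂ) R |
      PP M (cc v.1) v.2.1 (Complex.exp v.2.1) = 0 ∧ dd M (cc v.1) v.2.1 (Complex.exp v.2.1) = 0} := by
    ext x
    constructor
    · rintro ⟨z, hz, h4, h5⟩
      exact ⟨(x, ⟨z, by rwa [Metric.mem_closedBall, dist_zero_right]⟩), ⟨h4, h5⟩, rfl⟩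
    · rintro ⟨⟨x', z, hz⟩, ⟨h4, h5⟩, rfl⟩
      exact ⟨z, by rwa [Metric.mem_closedBall, dist_zero_right] at hz, h4, h5⟩
  rw [h3]
  exact h2

theorem PP_entire (M : Finset (ℕ × ℕ)) (c : ℕ × ℕ → ℂ) : Differentiable ℂ fun z : ℂ => PP M c z (Complex.exp z) :=
  fun z => (PP_deriv c z).differentiableAt

theorem dd_entire (M : Finset (ℕ × ℕ)) (c : ℕ × ℕ → ℂ) : Differentiable ℂ fun z : ℂ => dd M c z (Complex.exp z) := by
  unfold dd
  fun_prop

theorem PP_add {M : Finset (ℕ × ℕ)} {c c' : ℕ × ℕ → ℂ} {q : ℕ × ℕ} {t : ℂ} (hq : q ∈ M)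
    (h : ∀ p, c' p = c p + if p = q then t else 0) (z y : ℂ) : PP M c' z y = PP M c z y + t * z ^ q.1 * y ^ q.2 := by
  unfold PP
  simp only [h, add_mul, Finset.sum_add_distrib, ite_mul, zero_mul, Finset.sum_ite_eq', if_pos hq]

theorem dd_add {M : Finset (ℕ × ℕ)} {c c' : ℕ × ℕ → ℂ} {q : ℕ × ℕ} {t : ℂ} (hq : q ∈ M)
    (h : ∀ p, c' p = c p + if p = q then t else 0) (z y : ℂ) : dd M c' z y = dd M c z y +
      t * ((q.1 : ℂ) * z ^ (q.1 - 1) * y ^ q.2 + z ^ q.1 * ((q.2 : ℂ) * y ^ q.2)) := by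
  unfold dd
  simp only [h, add_mul, Finset.sum_add_distrib, ite_mul, zero_mul, Finset.sum_ite_eq', if_pos hq]

variable {𝕜 : Type*} [RCLike 𝕜] [NormedSpace 𝕜 F] [MeasurableSpace F] [BorelSpace F] [LocallyCompactSpace F]

/-- all coefficients are parameters, up to a factor (direction of the constant coefficient) -/
theorem bad_null_00 (μ : Measure 𝕜) [μ.IsAddHaarMeasure] [NullSingletonClass μ] (ν : Measure F) [ν.IsAddHaarMeasure]
    (φ : 𝕜 → ℂ) (hφ : Function.Injective φ)
    {M : Finset (ℕ × ℕ)} (h00 : (0, 0) ∈ M) (h10 : (1, 0) ∈ M) {cc : F → ℕ × ℕ → ℂ} (h : ∀ p, Continuous fun x => cc x p)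
    {v0 v1 : F} (hv0 : ∀ (x : F) (t : 𝕜) p, cc (x + t • v0) p = cc x p + if p = (0, 0) then φ t else 0)
    (hv1 : ∀ (x : F) (t : 𝕜) p, cc (x + t • v1) p = cc x p + if p = (1, 0) then φ t else 0) (R : ℝ) :
    ν (Bad M cc R) = 0 := by
  have hc : ∀ z : ℂ, Continuous fun x : F => dd M (cc x) z (Complex.exp z) := fun z =>
    (dd_cont h).comp (continuous_id.prodMk continuous_const)
  have hH : ν {x : F | dd M (cc x) 0 (Complex.exp 0) = 0} = 0 := by
    refine null_slices μ ν (isClosed_eq (hc 0) continuous_const).measurableSet v1 fun y => ?_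
    refine Set.Subsingleton.countable fun t ht t' ht' => hφ ?_
    simp only [Set.mem_ofPred_eq] at ht ht'
    rw [dd_add h10 (hv1 y t)] at ht
    rw [dd_add h10 (hv1 y t')] at ht'
    simp at ht ht'
    linear_combination ht - ht'
  have hS : ν (Bad M cc R ∩ {x : F | dd M (cc x) 0 (Complex.exp 0) ≠ 0}) = 0 := by
    refine null_slices μ ν ((bad_closed h R).measurableSet.inter
      (isClosed_eq (hc 0) continuous_const).measurableSet.compl) v0 fun y => ?_
    by_cases hy : dd M (cc y) 0 (Complex.exp 0) = 0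
    · have h1 : {t : 𝕜 | y + t • v0 ∈ Bad M cc R ∩ {x : F | dd M (cc x) 0 (Complex.exp 0) ≠ 0}} = ∅ := by
        refine Set.eq_empty_of_forall_notMem fun t ht => ht.2 ?_
        rw [dd_add h00 (hv0 y t), hy]
        simp
      rw [h1]
      exact Set.countable_empty
    · have h1 : {z : ℂ | dd M (cc y) z (Complex.exp z) = 0}.Countable :=
        Pool.Agent.Y563.SE.zeros_countable (dd_entire M (cc y)) ⟨0, hy⟩
      have h2 := (h1.image fun z => - PP M (cc y) z (Complex.exp z)).preimage hφ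
      refine h2.mono ?_
      rintro t ⟨⟨z, -, hz1, hz2⟩, -⟩
      rw [PP_add h00 (hv0 y t)] at hz1
      rw [dd_add h00 (hv0 y t)] at hz2
      refine ⟨z, ?_, ?_⟩
      · simpa using hz2
      · simp only [pow_zero, mul_one] at hz1
        linear_combination -hz1
  refine measure_mono_null (fun x hx => ?_) (measure_union_null hH hS)
  by_cases hx0 : dd M (cc x) 0 (Complex.exp 0) = 0
  · exact Or.inl hx0
  · exact Or.inr ⟨hx, hx0⟩

/-- the constant coefficient is fixed -/
theorem bad_null_10 (μ : Measure 𝕜) [μ.IsAddHaarMeasure] [NullSingletonClass μ] (ν : Measure F) [ν.IsAddHaarMeasure]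
    (φ : 𝕜 → ℂ) (hφ : Function.Injective φ)
    {M : Finset (ℕ × ℕ)} (h10 : (1, 0) ∈ M) (h01 : (0, 1) ∈ M) {cc : F → ℕ × ℕ → ℂ} (h : ∀ p, Continuous fun x => cc x p)
    {v0 v1 : F} (hv0 : ∀ (x : F) (t : 𝕜) p, cc (x + t • v0) p = cc x p + if p = (0, 1) then φ t else 0)
    (hv1 : ∀ (x : F) (t : 𝕜) p, cc (x + t • v1) p = cc x p + if p = (1, 0) then φ t else 0) (R : ℝ) :
    ν (Bad M cc R) = 0 := by
  have hc : ∀ z : ℂ, Continuous fun x : F => PP M (cc x) z (Complex.exp z) := fun z =>
    (PP_cont h).comp (continuous_id.prodMk continuous_const)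
  have hH : ν {x : F | PP M (cc x) 0 (Complex.exp 0) = 0} = 0 := by
    refine null_slices μ ν (isClosed_eq (hc 0) continuous_const).measurableSet v0 fun y => ?_
    refine Set.Subsingleton.countable fun t ht t' ht' => hφ ?_
    simp only [Set.mem_ofPred_eq] at ht ht'
    rw [PP_add h01 (hv0 y t)] at ht
    rw [PP_add h01 (hv0 y t')] at ht'
    simp at ht ht'
    linear_combination ht - ht'
  have hS : ν (Bad M cc R ∩ {x : F | PP M (cc x) 0 (Complex.exp 0) ≠ 0}) = 0 := by
    refine null_slices μ ν ((bad_closed h R).measurableSet.inter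
      (isClosed_eq (hc 0) continuous_const).measurableSet.compl) v1 fun y => ?_
    by_cases hy : PP M (cc y) 0 (Complex.exp 0) = 0
    · have h1 : {t : 𝕜 | y + t • v1 ∈ Bad M cc R ∩ {x : F | PP M (cc x) 0 (Complex.exp 0) ≠ 0}} = ∅ := by
        refine Set.eq_empty_of_forall_notMem fun t ht => ht.2 ?_
        rw [PP_add h10 (hv1 y t), hy]
        simp
      rw [h1]
      exact Set.countable_empty
    · have h1 : {z : ℂ | PP M (cc y) z (Complex.exp z) - z * dd M (cc y) z (Complex.exp z) = 0}.Countable :=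
        Pool.Agent.Y563.SE.zeros_countable ((PP_entire M (cc y)).sub (differentiable_id.mul (dd_entire M (cc y))))
          ⟨0, by simpa using hy⟩
      have h2 := (h1.image fun z => - dd M (cc y) z (Complex.exp z)).preimage hφ
      refine h2.mono ?_
      rintro t ⟨⟨z, -, hz1, hz2⟩, -⟩
      rw [PP_add h10 (hv1 y t)] at hz1
      rw [dd_add h10 (hv1 y t)] at hz2
      simp only [pow_zero, mul_one, pow_one, Nat.cast_one, Nat.sub_self, Nat.cast_zero, mul_zero, zero_mul,
        add_zero] at hz1 hz2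
      refine ⟨z, ?_, ?_⟩
      · change PP M (cc y) z (Complex.exp z) - z * dd M (cc y) z (Complex.exp z) = 0
        linear_combination hz1 - z * hz2
      · linear_combination -hz2
  refine measure_mono_null (fun x hx => ?_) (measure_union_null hH hS)
  by_cases hx0 : PP M (cc x) 0 (Complex.exp 0) = 0
  · exact Or.inl hx0
  · exact Or.inr ⟨hx, hx0⟩

end Pool.Agent.V8H73.AZ
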