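import Mathlib

/-!
# The simple zeros in a disc as analytic functions of parameters
-/

set_option autoImplicit false
set_option linter.unusedSectionVars false

open Set Filter
open scoped Topology ContDiff

namespace Pool.Agent.V8H73.AZ

variable {E : Type*} [NormedAddCommGroup E] [NormedSpace ℂ E] [CompleteSpace E]

theorem inv_aux {Φ : E × ℂ → ℂ} {x0 : E} {z0 d : ℂ} (hΦ : ContDiffAt ℂ ω Φ (x0, z0))
    (hd : HasDerivAt (fun w => Φ (x0, w)) d z0) (hd0 : d ≠ 0) :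
    (fderiv ℂ Φ (x0, z0) ∘L .inr ℂ E ℂ).IsInvertible := by
  refine ⟨ContinuousLinearEquiv.unitsEquivAut ℂ (Units.mk0 d hd0), ?_⟩
  have h1 : HasFDerivAt (fun w : ℂ => Φ (x0, w)) (fderiv ℂ Φ (x0, z0) ∘L .inr ℂ E ℂ) z0 := by
    have h2 : HasFDerivAt Φ (fderiv ℂ Φ (x0, z0)) (x0, z0) := (hΦ.differentiableAt (by simp)).hasFDerivAt
    have h3 : HasFDerivAt (fun w : ℂ => (x0, w)) (.inr ℂ E ℂ) z0 := hasFDerivAt_prodMk_right x0 z0
    exact h2.comp z0 h3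
  have h4 := h1.hasDerivAt.unique hd
  ext
  simp at h4 ⊢
  exact h4.symm

/-- a simple zero near one point -/
theorem one_zero {Φ : E × ℂ → ℂ} {x0 : E} {z0 d : ℂ} (hΦ : AnalyticAt ℂ Φ (x0, z0)) (h0 : Φ (x0, z0) = 0)
    (hd : HasDerivAt (fun w => Φ (x0, w)) d z0) (hd0 : d ≠ 0) :
    ∃ ψ : E → ℂ, ψ x0 = z0 ∧ AnalyticAt ℂ ψ x0 ∧ (∀ᶠ x in 𝓝 x0, Φ (x, ψ x) = 0) ∧
      ∀ᶠ v in 𝓝 (x0, z0), Φ v = 0 → ψ v.1 = v.2 := by
  have cdf : ContDiffAt ℂ ω Φ (x0, z0) := hΦ.contDiffAt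
  have inv := inv_aux cdf hd hd0
  refine ⟨cdf.implicitFunction (by simp) inv, cdf.implicitFunction_apply_self (by simp) inv,
    (cdf.contDiffAt_implicitFunction (by simp) inv).analyticAt, ?_, ?_⟩
  · have := cdf.eventually_apply_implicitFunction (by simp) inv
    rw [h0] at this
    exact this
  · have := cdf.eventually_apply_eq_iff_implicitFunction (by simp) inv
    rw [h0] at this
    filter_upwards [this] with v hv using hv.1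

/-- **The zeros in a disc.** -/
theorem patch {Φ : E × ℂ → ℂ} (hΦ : ∀ v, AnalyticAt ℂ Φ v) {D : E → ℂ → ℂ}
    (hD : ∀ x z, HasDerivAt (fun w => Φ (x, w)) (D x z) z) (hDc : Continuous fun v : E × ℂ => D v.1 v.2)
    {x0 : E} {R : ℝ} (hs : ∀ z, ‖z‖ ≤ R → Φ (x0, z) = 0 → D x0 z ≠ 0) :
    ∃ (δ : ℝ) (n : ℕ) (ζ : Fin n → E → ℂ), 0 < δ ∧ (∀ i, AnalyticOnNhd ℂ (ζ i) (Metric.ball x0 δ)) ∧
      (∀ i, ∀ x ∈ Metric.ball x0 δ, Φ (x, ζ i x) = 0) ∧ (∀ i, ∀ x ∈ Metric.ball x0 δ, D x (ζ i x) ≠ 0) ∧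
      (∀ i j, i ≠ j → ∀ x ∈ Metric.ball x0 δ, ζ i x ≠ ζ j x) ∧
      ∀ x ∈ Metric.ball x0 δ, ∀ z, ‖z‖ ≤ R → Φ (x, z) = 0 → ∃ i, ζ i x = z := by
  classical
  have hloc : ∀ z0 : ℂ, ∃ (ψ : E → ℂ) (B : Set ℂ), z0 ∈ Metric.closedBall (0 : ℂ) R → B ∈ 𝓝 z0 ∧
      (∀ᶠ x in 𝓝 x0, ∀ z ∈ B, Φ (x, z) = 0 → Φ (x0, z0) = 0 ∧ ψ x = z) ∧
      (Φ (x0, z0) = 0 → ψ x0 = z0 ∧ AnalyticAt ℂ ψ x0 ∧ ∀ᶠ x in 𝓝 x0, Φ (x, ψ x) = 0) := by
    intro z0
    by_cases hz : z0 ∈ Metric.closedBall (0 : ℂ) R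
    · by_cases h0 : Φ (x0, z0) = 0
      · have hR : ‖z0‖ ≤ R := by rwa [Metric.mem_closedBall, dist_zero_right] at hz
        obtain ⟨ψ, h1, h2, h3, h4⟩ := one_zero (hΦ _) h0 (hD x0 z0) (hs z0 hR h0)
        rw [nhds_prod_eq, eventually_prod_iff] at h4
        obtain ⟨pa, ha, pb, hb, hab⟩ := h4
        refine ⟨ψ, {z | pb z}, fun _ => ⟨hb, ?_, fun _ => ⟨h1, h2, h3⟩⟩⟩
        filter_upwards [ha] with x hx z hz h
        exact ⟨h0, hab hx hz h⟩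
      · have h4 : ∀ᶠ v in 𝓝 (x0, z0), Φ v ≠ 0 := (hΦ _).continuousAt.eventually_ne h0
        rw [nhds_prod_eq, eventually_prod_iff] at h4
        obtain ⟨pa, ha, pb, hb, hab⟩ := h4
        refine ⟨fun _ => 0, {z | pb z}, fun _ => ⟨hb, ?_, fun h => absurd h h0⟩⟩
        filter_upwards [ha] with x hx z hz h
        exact absurd h (hab hx hz)
    · exact ⟨fun _ => 0, univ, fun h => absurd h hz⟩
  choose ψ B hψ using hloc
  obtain ⟨t, ht1, ht2⟩ := (isCompact_closedBall (0 : ℂ) R).elim_nhds_subcover B fun z hz => (hψ z hz).1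
  set t' := t.filter fun z => Φ (x0, z) = 0 with ht'
  have hmem : ∀ z ∈ t', z ∈ Metric.closedBall (0 : ℂ) R ∧ Φ (x0, z) = 0 := fun z hz => by
    rw [ht', Finset.mem_filter] at hz
    exact ⟨ht1 z hz.1, hz.2⟩
  have e1 : ∀ᶠ x in 𝓝 x0, ∀ z0 ∈ t, ∀ z ∈ B z0, Φ (x, z) = 0 → Φ (x0, z0) = 0 ∧ ψ z0 x = z :=
    (Finset.eventually_all t).2 fun z0 hz0 => (hψ z0 (ht1 z0 hz0)).2.1
  have e2 : ∀ᶠ x in 𝓝 x0, ∀ z0 ∈ t', AnalyticAt ℂ (ψ z0) x ∧ Φ (x, ψ z0 x) = 0 ∧ D x (ψ z0 x) ≠ 0 := by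
    refine (Finset.eventually_all t').2 fun z0 hz0 => ?_
    obtain ⟨h1, h2, h3⟩ := (hψ z0 (hmem z0 hz0).1).2.2 (hmem z0 hz0).2
    have h4 : ∀ᶠ x in 𝓝 x0, D x (ψ z0 x) ≠ 0 := by
      have hc : ContinuousAt (fun x => D x (ψ z0 x)) x0 := by
        have h5 : ContinuousAt (fun x => (x, ψ z0 x)) x0 := continuousAt_id.prodMk h2.continuousAt
        exact (hDc.continuousAt (x := (x0, ψ z0 x0))).comp_of_eq h5 rfl
      refine hc.eventually_ne ?_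
      rw [h1]
      have hR : ‖z0‖ ≤ R := by
        have := (hmem z0 hz0).1
        rwa [Metric.mem_closedBall, dist_zero_right] at this
      exact hs z0 hR (hmem z0 hz0).2
    filter_upwards [h2.eventually_analyticAt, h3, h4] with x a b c using ⟨a, b, c⟩
  have e3 : ∀ᶠ x in 𝓝 x0, ∀ z0 ∈ t', ∀ z1 ∈ t', z0 ≠ z1 → ψ z0 x ≠ ψ z1 x := by
    refine (Finset.eventually_all t').2 fun z0 hz0 => (Finset.eventually_all t').2 fun z1 hz1 => ?_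
    obtain ⟨h1, h2, -⟩ := (hψ z0 (hmem z0 hz0).1).2.2 (hmem z0 hz0).2
    obtain ⟨h3, h4, -⟩ := (hψ z1 (hmem z1 hz1).1).2.2 (hmem z1 hz1).2
    by_cases hne : z0 = z1
    · exact Eventually.of_forall fun x h => absurd hne h
    · have h5 : ContinuousAt (fun x => ψ z0 x - ψ z1 x) x0 := h2.continuousAt.sub h4.continuousAt
      have h6 : ∀ᶠ x in 𝓝 x0, ψ z0 x - ψ z1 x ≠ 0 := h5.eventually_ne (by rw [h1, h3]; exact sub_ne_zero.2 hne)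
      filter_upwards [h6] with x hx _ h
      exact hx (sub_eq_zero.2 h)
  obtain ⟨δ, hδ, hball⟩ := Metric.eventually_nhds_iff_ball.1 (e1.and (e2.and e3))
  refine ⟨δ, t'.card, fun i => ψ (t'.equivFin.symm i), hδ, fun i x hx => ((hball x hx).2.1 _ (t'.equivFin.symm i).2).1,
    fun i x hx => ((hball x hx).2.1 _ (t'.equivFin.symm i).2).2.1,
    fun i x hx => ((hball x hx).2.1 _ (t'.equivFin.symm i).2).2.2, fun i j hij x hx => ?_, fun x hx z hz h0 => ?_⟩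
  · refine (hball x hx).2.2 _ (t'.equivFin.symm i).2 _ (t'.equivFin.symm j).2 fun h => hij ?_
    exact t'.equivFin.symm.injective (Subtype.ext h)
  · have hz' : z ∈ Metric.closedBall (0 : ℂ) R := by rwa [Metric.mem_closedBall, dist_zero_right]
    obtain ⟨z0, hz0, hzB⟩ := mem_iUnion₂.1 (ht2 hz')
    obtain ⟨h1, h2⟩ := (hball x hx).1 z0 hz0 z hzB h0
    have hz0' : z0 ∈ t' := by
      rw [ht', Finset.mem_filter]
      exact ⟨hz0, h1⟩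
    exact ⟨t'.equivFin ⟨z0, hz0'⟩, by simpa using h2⟩

end Pool.Agent.V8H73.AZ
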