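import Pool.Agent.V8H73.AZ.Free
import Pool.Agent.V8H73.AZ.Patch
import Pool.Agent.V8H73.AZ.Null

/-!
# The zeros in a disc as independent functions of the coefficients
-/

set_option autoImplicit false
set_option linter.unusedSectionVars false

open Set Filter Topology

namespace Pool.Agent.V8H73.AZ

variable {M : Finset (ℕ × ℕ)}

theorem cf_an (p : ℕ × ℕ) (U : Set (Xm M → ℂ)) : AnalyticOnNhd ℂ (fun x : Xm M → ℂ => cf x p) U := by
  unfold cf
  by_cases hp : p ∈ M.erase (0, 0)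
  · simp only [dif_pos hp]
    exact (ContinuousLinearMap.proj (R := ℂ) (φ := fun _ : Xm M => ℂ) (⟨p, hp⟩ : Xm M)).analyticOnNhd U
  · simp only [dif_neg hp]
    exact analyticOnNhd_const

theorem cf_cont (p : ℕ × ℕ) : Continuous fun x : Xm M → ℂ => cf x p := by
  have := (cf_an (M := M) p univ).continuousOn
  rwa [← continuousOn_univ]

theorem PP_an (v : (Xm M → ℂ) × ℂ) :
    AnalyticAt ℂ (fun v : (Xm M → ℂ) × ℂ => PP M (cf v.1) v.2 (Complex.exp v.2)) v := by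
  unfold PP
  refine Finset.analyticAt_fun_sum _ fun p _ => ?_
  have h1 : AnalyticAt ℂ (fun v : (Xm M → ℂ) × ℂ => cf v.1 p) v :=
    (cf_an p univ v.1 (mem_univ _)).comp_of_eq analyticAt_fst rfl
  exact (h1.mul (analyticAt_snd.pow _)).mul (analyticAt_snd.cexp.pow _)

/-- **The zeros in a disc near parameters without multiple zeros.** -/
theorem patch_M (hM : Four M) {R : ℝ} {x0 : Xm M → ℂ} (h : x0 ∉ Bad M cf R) :
    ∃ (δ : ℝ) (n : ℕ) (ζ : Fin n → (Xm M → ℂ) → ℂ), 0 < δ ∧ Br (Metric.ball x0 δ) ζ ∧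
      Pool.Agent.N207.AX.Ind (Metric.ball x0 δ) ζ ∧
      ∀ x ∈ Metric.ball x0 δ, ∀ z, ‖z‖ ≤ R → PP M (cf x) z (Complex.exp z) = 0 →
        ∃ i, ζ i x = z ∧ dd M (cf x) z (Complex.exp z) ≠ 0 := by
  have hs : ∀ z, ‖z‖ ≤ R → PP M (cf x0) z (Complex.exp z) = 0 → dd M (cf x0) z (Complex.exp z) ≠ 0 :=
    fun z hz h0 h1 => h ⟨z, hz, h0, h1⟩
  obtain ⟨δ, n, ζ, hδ, h1, h2, h3, h4, h5⟩ := patch (E := Xm M → ℂ)
    (Φ := fun v => PP M (cf v.1) v.2 (Complex.exp v.2)) PP_an (D := fun x z => dd M (cf x) z (Complex.exp z))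
    (fun x z => PP_deriv (cf x) z) (dd_cont cf_cont) (x0 := x0) (R := R) hs
  have hB : Br (Metric.ball x0 δ) ζ := ⟨h1, h2, h3, fun i j hij => ⟨x0, Metric.mem_ball_self hδ,
    h4 i j hij x0 (Metric.mem_ball_self hδ)⟩⟩
  refine ⟨δ, n, ζ, hδ, hB, br_ind hM Metric.isOpen_ball (convex_ball x0 δ).isPreconnected
    ⟨x0, Metric.mem_ball_self hδ⟩ hB, fun x hx z hz h0 => ?_⟩
  obtain ⟨i, hi⟩ := h5 x hx z hz h0
  exact ⟨i, hi, by rw [← hi]; exact h3 i x hx⟩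

end Pool.Agent.V8H73.AZ
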