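import Pool.Agent.V8H73.AZ.Rel

/-!
# Zeros of exponential polynomials as functions of the coefficients: no linear relations
-/

set_option autoImplicit false
set_option linter.unusedSectionVars false

open Polynomial

namespace Pool.Agent.V8H73.AZ

variable {M : Finset (ℕ × ℕ)}

/-- two polynomials have no common root which is a function of the coefficients -/
theorem pigeon {U : Set (Xm M → ℂ)} (hU : IsOpen U) (hne : U.Nonempty) (q : Xm M) (η : (Xm M → ℂ) → ℂ)
    (A B : (Xm M → ℂ) → ℂ[X]) (hA : ∀ (x : Xm M → ℂ) (t : ℂ), A (x + t • Pi.single q (1 : ℂ)) = A x)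
    (hA0 : ∀ x, A x ≠ 0) (hB : ∀ (x : Xm M → ℂ) (t : ℂ), B (x + t • Pi.single q (1 : ℂ)) = B x + C t) :
    ∃ x ∈ U, (A x).eval (η x) ≠ 0 ∨ (B x).eval (η x) ≠ 0 := by
  classical
  by_contra hcon
  push Not at hcon
  obtain ⟨x0, hx0⟩ := hne
  let ℓ : ℕ → Xm M → ℂ := fun n => x0 + ((1 / ((n : ℂ) + 1))) • (Pi.single q (1 : ℂ) : Xm M → ℂ)
  have hlim : Filter.Tendsto ℓ Filter.atTop (nhds x0) := by
    have h1 : Filter.Tendsto (fun n : ℕ => 1 / ((n : ℂ) + 1)) Filter.atTop (nhds 0) :=
      tendsto_one_div_add_atTop_nhds_zero_nat (𝕜 := ℂ)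
    have h2 := (h1.smul_const (Pi.single q (1 : ℂ) : Xm M → ℂ)).const_add x0
    rw [zero_smul, add_zero] at h2
    exact h2
  obtain ⟨N, hN⟩ := Filter.eventually_atTop.1 (hlim.eventually (hU.mem_nhds hx0))
  have hroots : ∀ n : ℕ, η (ℓ (N + n)) ∈ (A x0).roots.toFinset := by
    intro n
    rw [Multiset.mem_toFinset, mem_roots (hA0 x0), IsRoot.def, ← hA x0 (1 / (((N + n : ℕ) : ℂ) + 1))]
    exact (hcon _ (hN _ (Nat.le_add_right _ _))).1
  obtain ⟨a, b, hab, hη⟩ : ∃ a b : ℕ, a ≠ b ∧ η (ℓ (N + a)) = η (ℓ (N + b)) := by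
    obtain ⟨a, -, b, -, hab, h⟩ := (Set.infinite_univ (α := ℕ)).exists_ne_map_eq_of_mapsTo
      (f := fun n => η (ℓ (N + n))) (t := ((A x0).roots.toFinset : Set ℂ)) (fun n _ => hroots n)
      (Finset.finite_toSet _)
    exact ⟨a, b, hab, h⟩
  have ha := (hcon _ (hN _ (Nat.le_add_right N a))).2
  have hb := (hcon _ (hN _ (Nat.le_add_right N b))).2
  rw [show ℓ (N + a) = x0 + ((1 / (((N + a : ℕ) : ℂ) + 1))) • (Pi.single q (1 : ℂ) : Xm M → ℂ) from rfl, hB] at ha
  rw [show ℓ (N + b) = x0 + ((1 / (((N + b : ℕ) : ℂ) + 1))) • (Pi.single q (1 : ℂ) : Xm M → ℂ) from rfl, hB] at hb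
  rw [eval_add, eval_C] at ha hb
  have h3 : η (x0 + ((1 / (((N + a : ℕ) : ℂ) + 1))) • (Pi.single q (1 : ℂ) : Xm M → ℂ)) =
    η (x0 + ((1 / (((N + b : ℕ) : ℂ) + 1))) • (Pi.single q (1 : ℂ) : Xm M → ℂ)) := hη
  rw [h3] at ha
  have h4 : 1 / (((N + a : ℕ) : ℂ) + 1) = 1 / (((N + b : ℕ) : ℂ) + 1) := by linear_combination ha - hb
  have h5 : (((N + a : ℕ) : ℂ) + 1) = (((N + b : ℕ) : ℂ) + 1) := by
    rw [one_div, one_div] at h4
    exact inv_injective h4
  have h6 : ((N + a : ℕ) : ℂ) = ((N + b : ℕ) : ℂ) := by linear_combination h5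
  have h7 : N + a = N + b := by exact_mod_cast h6
  omega

/-- the coefficient of `Y ^ j` -/
noncomputable def cY (j : ℕ) (x : Xm M → ℂ) : ℂ[X] := ∑ p ∈ M, if p.2 = j then C (cf x p) * X ^ p.1 else 0

/-- the coefficient of `Z ^ j` -/
noncomputable def cZ (j : ℕ) (x : Xm M → ℂ) : ℂ[X] := ∑ p ∈ M, if p.1 = j then C (cf x p) * X ^ p.2 else 0

theorem cY_eval (j : ℕ) (x : Xm M → ℂ) (z : ℂ) : (cY j x).eval z = (polyY M (cf x) z).coeff j := by
  unfold cY polyY
  rw [eval_finsetSum, finsetSum_coeff]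
  refine Finset.sum_congr rfl fun p _ => ?_
  rw [coeff_C_mul, coeff_X_pow]
  by_cases h : p.2 = j
  · rw [if_pos h, if_pos h.symm]
    simp
  · rw [if_neg h, if_neg (Ne.symm h)]
    simp

theorem cZ_eval (j : ℕ) (x : Xm M → ℂ) (z : ℂ) : (cZ j x).eval z = (polyZ M (cf x) z).coeff j := by
  unfold cZ polyZ
  rw [eval_finsetSum, finsetSum_coeff]
  refine Finset.sum_congr rfl fun p _ => ?_
  rw [coeff_C_mul, coeff_X_pow]
  by_cases h : p.1 = j
  · rw [if_pos h, if_pos h.symm]
    simp
  · rw [if_neg h, if_neg (Ne.symm h)]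
    simp

theorem polyY_ne {U : Set (Xm M → ℂ)} (hU : IsOpen U) (hne : U.Nonempty) (h00 : (0, 0) ∈ M) (h01 : (0, 1) ∈ M)
    (η : (Xm M → ℂ) → ℂ) : ∃ x ∈ U, polyY M (cf x) (η x) ≠ 0 := by
  have hq : ((0, 1) : ℕ × ℕ) ∈ M.erase (0, 0) := Finset.mem_erase.2 ⟨by simp, h01⟩
  obtain ⟨x, hx, h⟩ := pigeon hU hne ⟨(0, 1), hq⟩ η (cY 0) (cY 1)
    (fun x t => by
      unfold cY
      refine Finset.sum_congr rfl fun p _ => ?_
      by_cases h : p.2 = 0
      · rw [if_pos h, if_pos h, cf_add, if_neg (fun h1 => by rw [h1] at h; simp at h), add_zero]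
      · rw [if_neg h, if_neg h])
    (fun x h => by
      have h1 := congrArg (fun Q => Q.eval 0) h
      simp only [eval_zero] at h1
      unfold cY at h1
      rw [eval_finsetSum, Finset.sum_eq_single (0, 0)] at h1
      · rw [if_pos rfl, cf_zero] at h1
        simp at h1
      · intro p hp hp0
        by_cases h : p.2 = 0
        · rw [if_pos h]
          have h2 : p.1 ≠ 0 := fun h3 => hp0 (Prod.ext h3 h)
          simp [h2]
        · rw [if_neg h]
          simp
      · intro h2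
        exact absurd h00 h2)
    (fun x t => by
      have h1 : ∀ p ∈ M, (if p.2 = 1 then C (cf (x + t • Pi.single (⟨(0, 1), hq⟩ : Xm M) 1) p) * X ^ p.1 else 0) =
          (if p.2 = 1 then C (cf x p) * X ^ p.1 else 0) + if p = (0, 1) then C t else 0 := by
        intro p _
        by_cases h : p.2 = 1
        · rw [if_pos h, if_pos h, cf_add]
          by_cases h2 : p = (0, 1)
          · rw [if_pos h2, if_pos h2, h2]
            simp
          · rw [if_neg h2, if_neg h2, add_zero, add_zero]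
        · rw [if_neg h, if_neg h, if_neg (fun h2 => h (by rw [h2])), add_zero]
      unfold cY
      rw [Finset.sum_congr rfl h1, Finset.sum_add_distrib, Finset.sum_ite_eq' M ((0, 1) : ℕ × ℕ), if_pos h01])
  refine ⟨x, hx, fun h0 => ?_⟩
  rw [cY_eval, cY_eval, h0] at h
  simp at h

theorem polyZ_ne {U : Set (Xm M → ℂ)} (hU : IsOpen U) (hne : U.Nonempty) (h00 : (0, 0) ∈ M) (h10 : (1, 0) ∈ M)
    (η : (Xm M → ℂ) → ℂ) : ∃ x ∈ U, polyZ M (cf x) (η x) ≠ 0 := by
  have hq : ((1, 0) : ℕ × ℕ) ∈ M.erase (0, 0) := Finset.mem_erase.2 ⟨by simp, h10⟩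
  obtain ⟨x, hx, h⟩ := pigeon hU hne ⟨(1, 0), hq⟩ η (cZ 0) (cZ 1)
    (fun x t => by
      unfold cZ
      refine Finset.sum_congr rfl fun p _ => ?_
      by_cases h : p.1 = 0
      · rw [if_pos h, if_pos h, cf_add, if_neg (fun h1 => by rw [h1] at h; simp at h), add_zero]
      · rw [if_neg h, if_neg h])
    (fun x h => by
      have h1 := congrArg (fun Q => Q.eval 0) h
      simp only [eval_zero] at h1
      unfold cZ at h1
      rw [eval_finsetSum, Finset.sum_eq_single (0, 0)] at h1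
      · rw [if_pos rfl, cf_zero] at h1
        simp at h1
      · intro p hp hp0
        by_cases h : p.1 = 0
        · rw [if_pos h]
          have h2 : p.2 ≠ 0 := fun h3 => hp0 (Prod.ext h h3)
          simp [h2]
        · rw [if_neg h]
          simp
      · intro h2
        exact absurd h00 h2)
    (fun x t => by
      have h1 : ∀ p ∈ M, (if p.1 = 1 then C (cf (x + t • Pi.single (⟨(1, 0), hq⟩ : Xm M) 1) p) * X ^ p.2 else 0) =
          (if p.1 = 1 then C (cf x p) * X ^ p.2 else 0) + if p = (1, 0) then C t else 0 := by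
        intro p _
        by_cases h : p.1 = 1
        · rw [if_pos h, if_pos h, cf_add]
          by_cases h2 : p = (1, 0)
          · rw [if_pos h2, if_pos h2, h2]
            simp
          · rw [if_neg h2, if_neg h2, add_zero, add_zero]
        · rw [if_neg h, if_neg h, if_neg (fun h2 => h (by rw [h2])), add_zero]
      unfold cZ
      rw [Finset.sum_congr rfl h1, Finset.sum_add_distrib, Finset.sum_ite_eq' M ((1, 0) : ℕ × ℕ), if_pos h10])
  refine ⟨x, hx, fun h0 => ?_⟩
  rw [cZ_eval, cZ_eval, h0] at h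
  simp at h

/-- the two coordinates of the points -/
noncomputable def pt {n : ℕ} (z : Fin n → (Xm M → ℂ) → ℂ) (i : Fin n ⊕ Fin n) (x : Xm M → ℂ) : ℂ :=
  Sum.elim (fun i => z i x) (fun i => Complex.exp (z i x)) i

/-- free zeros are independent -/
theorem ind_of_free {U : Set (Xm M → ℂ)} (hU : IsOpen U) (hc : IsPreconnected U) (hne : U.Nonempty)
    (h00 : (0, 0) ∈ M) (h01 : (0, 1) ∈ M) {n : ℕ} {z : Fin n → (Xm M → ℂ) → ℂ} (hz : ∀ i, AnalyticOnNhd ℂ (z i) U)
    (h0 : ∀ i, ∀ x ∈ U, PP M (cf x) (z i x) (Complex.exp (z i x)) = 0)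
    (hfree : ∀ (m : Fin n → ℤ) (C : ℂ), (∀ x ∈ U, ∑ i, (m i : ℂ) * z i x = C) → m = 0) :
    Pool.Agent.N207.AX.Ind U z := by
  obtain ⟨e, he, hI⟩ := Pool.Agent.N207.AX.exp_ind
    (Pool.Agent.N945.AX.ell (Pool.Agent.N301.AX.ind Pool.Agent.N878.AX.line)) hU hc hne hz hfree
  have hpa : ∀ i, AnalyticOnNhd ℂ (pt z i) U := by
    rintro (i | i)
    · exact hz i
    · exact (hz i).cexp
  refine Pool.Agent.N207.ZG.basis (f := pt z) hU hc hne hpa (e := e) hI (b := Sum.inl) ?_
  rintro (i | i)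
  · refine ⟨X - C (MvPolynomial.X i), ?_, fun x hx => ?_⟩
    · obtain ⟨x, hx⟩ := hne
      refine ⟨x, hx, fun h => ?_⟩
      have h1 := congrArg (fun Q => Q.coeff 1) h
      simp at h1
    · simp [Pool.Agent.N207.ZG.sp, pt]
  · refine ⟨polyY M (fun p => MvPolynomial.C (cR M p)) (MvPolynomial.X i), ?_, fun x hx => ?_⟩
    · obtain ⟨x, hx, hx0⟩ := polyY_ne hU hne h00 h01 (z i)
      refine ⟨x, hx, fun h => hx0 ?_⟩
      rw [polyY_map] at h
      simp only [Pool.Agent.N207.ZG.sp, MvPolynomial.eval₂Hom_C, eval_cR, MvPolynomial.eval₂Hom_X'] at h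
      exact h
    · rw [← Polynomial.eval_map, polyY_map, polyY_eval]
      simp only [Pool.Agent.N207.ZG.sp, MvPolynomial.eval₂Hom_C, eval_cR, MvPolynomial.eval₂Hom_X']
      exact h0 i x hx

/-- the four monomials -/
structure Four (M : Finset (ℕ × ℕ)) : Prop where
  h00 : (0, 0) ∈ M
  h10 : (1, 0) ∈ M
  h01 : (0, 1) ∈ M
  h11 : (1, 1) ∈ M

/-- analytic functions which are different simple zeros -/
structure Br {n : ℕ} (U : Set (Xm M → ℂ)) (z : Fin n → (Xm M → ℂ) → ℂ) : Prop where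
  an : ∀ i, AnalyticOnNhd ℂ (z i) U
  zero : ∀ i, ∀ x ∈ U, PP M (cf x) (z i x) (Complex.exp (z i x)) = 0
  simple : ∀ i, ∀ x ∈ U, dd M (cf x) (z i x) (Complex.exp (z i x)) ≠ 0
  dist : ∀ i j, i ≠ j → ∃ x ∈ U, z i x ≠ z j x

theorem Br.comp {n r : ℕ} {U : Set (Xm M → ℂ)} {z : Fin n → (Xm M → ℂ) → ℂ} (h : Br U z) {e : Fin r → Fin n}
    (he : Function.Injective e) : Br U fun i => z (e i) :=
  ⟨fun _ => h.an _, fun _ => h.zero _, fun _ => h.simple _, fun _ _ hij => h.dist _ _ fun h1 => hij (he h1)⟩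

/-- **No nontrivial linear combination of the zeros is constant.** -/
theorem free (hM : Four M) {U : Set (Xm M → ℂ)} (hU : IsOpen U) (hc : IsPreconnected U) (hne : U.Nonempty) :
    ∀ {n : ℕ} {z : Fin n → (Xm M → ℂ) → ℂ}, Br U z → ∀ (m : Fin n → ℤ) (C : ℂ),
      (∀ x ∈ U, ∑ i, (m i : ℂ) * z i x = C) → m = 0 := by
  intro n
  induction n with
  | zero =>
    intro z _ m C _
    exact Subsingleton.elim _ _
  | succ r ih =>
    intro z h m C hC
    by_cases hm : ∃ i, m i = 0
    · obtain ⟨i, hi⟩ := hm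
      have h1 := ih (h.comp (e := i.succAbove) Fin.succAbove_right_injective) (fun j => m (i.succAbove j)) C
        fun x hx => by
          have h2 := hC x hx
          rw [Fin.sum_univ_succAbove _ i, hi, Int.cast_zero, zero_mul, zero_add] at h2
          exact h2
      funext j
      rcases Fin.eq_self_or_eq_succAbove i j with rfl | ⟨j', rfl⟩
      · exact hi
      · exact congrFun h1 j'
    exfalso
    push Not at hm
    have hmc : ∀ i, (m i : ℂ) ≠ 0 := fun i => by exact_mod_cast hm i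
    have q10 : ((1, 0) : ℕ × ℕ) ∈ M.erase (0, 0) := Finset.mem_erase.2 ⟨by simp, hM.h10⟩
    have q01 : ((0, 1) : ℕ × ℕ) ∈ M.erase (0, 0) := Finset.mem_erase.2 ⟨by simp, hM.h01⟩
    have q11 : ((1, 1) : ℕ × ℕ) ∈ M.erase (0, 0) := Finset.mem_erase.2 ⟨by simp, hM.h11⟩
    have S1 : ∀ x ∈ U, ∑ i, (m i : ℂ) / dd M (cf x) (z i x) (Complex.exp (z i x)) = 0 := fun x hx =>
      rel_0 hM.h00 hU h.an h.zero h.simple hC hx
    have S2 : ∀ x ∈ U, ∑ i, (m i : ℂ) / dd M (cf x) (z i x) (Complex.exp (z i x)) * z i x = 0 := fun x hx => by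
      have := rel_q hU h.an h.zero h.simple hC hx ⟨(1, 0), q10⟩
      simpa using this
    have S3 : ∀ x ∈ U, ∑ i, (m i : ℂ) / dd M (cf x) (z i x) (Complex.exp (z i x)) * Complex.exp (z i x) = 0 :=
      fun x hx => by
        have := rel_q hU h.an h.zero h.simple hC hx ⟨(0, 1), q01⟩
        simpa using this
    have S4 : ∀ x ∈ U, ∑ i, (m i : ℂ) / dd M (cf x) (z i x) (Complex.exp (z i x)) *
        (z i x * Complex.exp (z i x)) = 0 := fun x hx => by
      have := rel_q hU h.an h.zero h.simple hC hx ⟨(1, 1), q11⟩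
      simpa using this
    have hw0 : ∀ i, ∀ x ∈ U, (m i : ℂ) / dd M (cf x) (z i x) (Complex.exp (z i x)) ≠ 0 := fun i x hx =>
      div_ne_zero (hmc i) (h.simple i x hx)
    rcases r with _ | _ | s
    · obtain ⟨x, hx⟩ := hne
      have h1 := S1 x hx
      rw [Fin.sum_univ_one] at h1
      exact hw0 0 x hx h1
    · obtain ⟨x, hx, hne'⟩ := h.dist 0 1 (by simp)
      have h1 := S1 x hx
      have h2 := S2 x hx
      rw [Fin.sum_univ_two] at h1 h2
      have h3 : (m 0 : ℂ) / dd M (cf x) (z 0 x) (Complex.exp (z 0 x)) * (z 0 x - z 1 x) = 0 := by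
        linear_combination h2 - z 1 x * h1
      rcases mul_eq_zero.1 h3 with h4 | h4
      · exact hw0 0 x hx h4
      · exact hne' (sub_eq_zero.1 h4)
    · have hB := h.comp (e := Fin.castSucc) (Fin.castSucc_injective (s + 2))
      have hI := ind_of_free hU hc hne hM.h00 hM.h01 hB.an hB.zero (ih hB)
      have hdan : ∀ i, AnalyticOnNhd ℂ (fun x => (m i : ℂ) / dd M (cf x) (z i x) (Complex.exp (z i x))) U := by
        intro i
        refine AnalyticOnNhd.div analyticOnNhd_const ?_ (h.simple i)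
        unfold dd
        refine Finset.analyticOnNhd_fun_sum _ fun p _ => ?_
        have hcf : AnalyticOnNhd ℂ (fun x : Xm M → ℂ => cf x p) U := by
          unfold cf
          by_cases hp : p ∈ M.erase (0, 0)
          · simp only [dif_pos hp]
            exact (ContinuousLinearMap.proj (R := ℂ) (φ := fun _ : Xm M => ℂ) (⟨p, hp⟩ : Xm M)).analyticOnNhd U
          · simp only [dif_neg hp]
            exact analyticOnNhd_const
        exact hcf.mul (((analyticOnNhd_const.mul ((h.an i).pow _)).mul ((h.an i).cexp.pow _)).add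
          (((h.an i).pow _).mul (analyticOnNhd_const.mul ((h.an i).cexp.pow _))))
      refine fn_contra (M := M) (c := cR M) hU hc hne (z := fun i : Fin (s + 2) => z i.castSucc)
        (y := fun i x => Complex.exp (z i.castSucc x))
        (w := fun i x => (m i.castSucc : ℂ) / dd M (cf x) (z i.castSucc x) (Complex.exp (z i.castSucc x)))
        (z' := z (Fin.last _)) (y' := fun x => Complex.exp (z (Fin.last _) x))
        (w' := fun x => (m (Fin.last _) : ℂ) / dd M (cf x) (z (Fin.last _) x) (Complex.exp (z (Fin.last _) x)))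
        (a := 0) (b := 1) (m := fun i => (m i.castSucc : ℂ)) (m' := (m (Fin.last _) : ℂ)) (C := C)
        (fun i => h.an _) (fun i => (h.an _).cexp) (fun i => hdan _) (h.an _) (h.an _).cexp (hdan _) hI (by simp)
        (fun i => hmc _) (hmc _) ?_ ?_ ?_ ?_ ?_ ?_ ?_ ?_ ?_ ?_ ?_ ?_
      · intro x hx
        have := hC x hx
        rw [Fin.sum_univ_castSucc] at this
        exact this
      · intro i x hx
        simp only [eval_cR]
        exact h.zero _ x hx
      · intro x hx
        simp only [eval_cR]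
        exact h.zero _ x hx
      · intro i x hx
        simp only [eval_cR]
        exact div_mul_cancel₀ _ (h.simple _ x hx)
      · intro x hx
        simp only [eval_cR]
        exact div_mul_cancel₀ _ (h.simple _ x hx)
      · intro i
        simp only [eval_cR]
        exact polyY_ne hU hne hM.h00 hM.h01 _
      · simp only [eval_cR]
        exact polyY_ne hU hne hM.h00 hM.h01 _
      · simp only [eval_cR]
        exact polyZ_ne hU hne hM.h00 hM.h10 _
      · intro x hx
        have := S1 x hx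
        rw [Fin.sum_univ_castSucc] at this
        exact this
      · intro x hx
        have := S2 x hx
        rw [Fin.sum_univ_castSucc] at this
        exact this
      · intro x hx
        have := S3 x hx
        rw [Fin.sum_univ_castSucc] at this
        exact this
      · intro x hx
        have := S4 x hx
        rw [Fin.sum_univ_castSucc] at this
        exact this

/-- **The zeros are independent.** -/
theorem br_ind (hM : Four M) {U : Set (Xm M → ℂ)} (hU : IsOpen U) (hc : IsPreconnected U) (hne : U.Nonempty)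
    {n : ℕ} {z : Fin n → (Xm M → ℂ) → ℂ} (h : Br U z) : Pool.Agent.N207.AX.Ind U z :=
  ind_of_free hU hc hne hM.h00 hM.h01 h.an h.zero (free hM hU hc hne h)

end Pool.Agent.V8H73.AZ
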