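import Pool.Agent.V8H73.AZ.Ring
import Pool.Agent.N878.AX.LINE
import Pool.Agent.N301.AX.IND
import Pool.Agent.N945.AX.ELL

/-!
# Zeros of exponential polynomials as functions of the coefficients: derivatives
-/

set_option autoImplicit false
set_option linter.unusedSectionVars false

open Polynomial

namespace Pool.Agent.V8H73.AZ

/-- the indices of the parameters -/
abbrev Xm (M : Finset (ℕ × ℕ)) : Type := {p : ℕ × ℕ // p ∈ M.erase (0, 0)}

variable {M : Finset (ℕ × ℕ)}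

/-- the coefficients -/
noncomputable def cR (M : Finset (ℕ × ℕ)) (p : ℕ × ℕ) : MvPolynomial (Xm M) ℂ :=
  if h : p ∈ M.erase (0, 0) then MvPolynomial.X ⟨p, h⟩ else 1

/-- the coefficients -/
def cf (x : Xm M → ℂ) (p : ℕ × ℕ) : ℂ := if h : p ∈ M.erase (0, 0) then x ⟨p, h⟩ else 1

theorem eval_cR (x : Xm M → ℂ) (p : ℕ × ℕ) : MvPolynomial.eval x (cR M p) = cf x p := by
  unfold cR cf
  split_ifs <;> simp

theorem cf_zero (x : Xm M → ℂ) : cf x (0, 0) = 1 := by simp [cf]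

theorem cf_add (x : Xm M → ℂ) (q : Xm M) (t : ℂ) {p : ℕ × ℕ} :
    cf (x + t • Pi.single q 1) p = cf x p + if p = q.1 then t else 0 := by
  unfold cf
  by_cases h : p ∈ M.erase (0, 0)
  · rw [dif_pos h, dif_pos h]
    by_cases hq : p = q.1
    · have h1 : (⟨p, h⟩ : Xm M) = q := Subtype.ext hq
      rw [if_pos hq, h1]
      simp
    · have h1 : (⟨p, h⟩ : Xm M) ≠ q := fun h2 => hq (congrArg Subtype.val h2)
      rw [if_neg hq, Pi.add_apply, Pi.smul_apply, Pi.single_eq_of_ne h1]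
      simp
  · rw [dif_neg h, dif_neg h, if_neg (fun h1 => h (by rw [h1]; exact q.2)), add_zero]

/-- the derivative of a monomial -/
theorem mono_deriv (p : ℕ × ℕ) (z : ℂ) : HasDerivAt (fun z : ℂ => z ^ p.1 * Complex.exp z ^ p.2)
    ((p.1 : ℂ) * z ^ (p.1 - 1) * Complex.exp z ^ p.2 + z ^ p.1 * ((p.2 : ℂ) * Complex.exp z ^ p.2)) z := by
  have h1 : HasDerivAt (fun z : ℂ => z ^ p.1) ((p.1 : ℂ) * z ^ (p.1 - 1)) z := by
    simpa using hasDerivAt_pow p.1 z
  have h2 : HasDerivAt (fun z : ℂ => Complex.exp z ^ p.2) ((p.2 : ℂ) * Complex.exp z ^ p.2) z := by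
    have h3 := (Complex.hasDerivAt_exp z).pow p.2
    refine h3.congr_deriv ?_
    rcases Nat.eq_zero_or_pos p.2 with h | h
    · simp [h]
    · rw [mul_assoc, ← pow_succ, Nat.sub_add_cancel h]
  exact h1.mul h2

theorem PP_deriv (c : ℕ × ℕ → ℂ) (z : ℂ) : HasDerivAt (fun z : ℂ => PP M c z (Complex.exp z))
    (dd M c z (Complex.exp z)) z := by
  have h1 := HasDerivAt.fun_sum (u := M) fun p _ => (mono_deriv p z).const_mul (c p)
  unfold PP dd
  refine h1.congr_of_eventuallyEq (Filter.Eventually.of_forall fun w => ?_)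
  exact Finset.sum_congr rfl fun p _ => by ring

/-- the derivative along a line of a zero -/
theorem zero_deriv {U : Set (Xm M → ℂ)} (hU : IsOpen U) {z : (Xm M → ℂ) → ℂ} (hz : AnalyticOnNhd ℂ z U)
    (h0 : ∀ x ∈ U, PP M (cf x) (z x) (Complex.exp (z x)) = 0) {x : Xm M → ℂ} (hx : x ∈ U) (q : Xm M) :
    z x ^ q.1.1 * Complex.exp (z x) ^ q.1.2 +
      fderiv ℂ z x (Pi.single q 1) * dd M (cf x) (z x) (Complex.exp (z x)) = 0 := by
  set ζ := fderiv ℂ z x (Pi.single q 1) with hζ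
  have hline : HasDerivAt (fun t : ℂ => x + t • (Pi.single q (1 : ℂ) : Xm M → ℂ)) (Pi.single q 1) 0 := by
    have h1 := ((hasDerivAt_id (0 : ℂ)).smul_const (Pi.single q (1 : ℂ) : Xm M → ℂ)).const_add x
    simpa using h1
  have hz1 : HasDerivAt (fun t : ℂ => z (x + t • (Pi.single q (1 : ℂ) : Xm M → ℂ))) ζ 0 := by
    have h1 : HasFDerivAt z (fderiv ℂ z x) (x + (0 : ℂ) • (Pi.single q (1 : ℂ) : Xm M → ℂ)) := by
      rw [zero_smul, add_zero]
      exact (hz x hx).differentiableAt.hasFDerivAt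
    exact h1.comp_hasDerivAt (0 : ℂ) hline
  have hterm : ∀ p ∈ M, HasDerivAt (fun t : ℂ => cf (x + t • Pi.single q 1) p *
      (z (x + t • (Pi.single q (1 : ℂ) : Xm M → ℂ)) ^ p.1 *
        Complex.exp (z (x + t • (Pi.single q (1 : ℂ) : Xm M → ℂ))) ^ p.2))
      ((if p = q.1 then 1 else 0) * (z x ^ p.1 * Complex.exp (z x) ^ p.2) + cf x p *
        (((p.1 : ℂ) * z x ^ (p.1 - 1) * Complex.exp (z x) ^ p.2 + z x ^ p.1 * ((p.2 : ℂ) * Complex.exp (z x) ^ p.2)) * ζ))
      0 := by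
    intro p hp
    have h1 : HasDerivAt (fun t : ℂ => cf (x + t • Pi.single q 1) p) (if p = q.1 then 1 else 0) 0 := by
      have h2 : (fun t : ℂ => cf (x + t • Pi.single q 1) p) = fun t : ℂ => cf x p + if p = q.1 then t else 0 :=
        funext fun t => cf_add x q t
      rw [h2]
      by_cases hpq : p = q.1
      · simp only [if_pos hpq]
        exact (hasDerivAt_id (0 : ℂ)).const_add _
      · simp only [if_neg hpq, add_zero]
        exact hasDerivAt_const _ _
    have h2 := HasDerivAt.comp (0 : ℂ) (h₂ := fun z : ℂ => z ^ p.1 * Complex.exp z ^ p.2)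
      (h := fun t : ℂ => z (x + t • (Pi.single q (1 : ℂ) : Xm M → ℂ))) (mono_deriv p _) hz1
    have h3 := h1.fun_mul h2
    refine h3.congr_deriv ?_
    simp only [Function.comp_apply, zero_smul, add_zero]
  have hsum := HasDerivAt.fun_sum hterm
  have hzero : (fun t : ℂ => ∑ p ∈ M, cf (x + t • Pi.single q 1) p *
      (z (x + t • (Pi.single q (1 : ℂ) : Xm M → ℂ)) ^ p.1 *
        Complex.exp (z (x + t • (Pi.single q (1 : ℂ) : Xm M → ℂ))) ^ p.2)) =ᶠ[nhds 0] fun _ => 0 := by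
    have h1 : ∀ᶠ t : ℂ in nhds 0, x + t • (Pi.single q (1 : ℂ) : Xm M → ℂ) ∈ U :=
      hline.continuousAt.eventually (by simpa using hU.mem_nhds hx)
    filter_upwards [h1] with t ht
    have h2 := h0 _ ht
    unfold PP at h2
    rw [← h2]
    exact Finset.sum_congr rfl fun p _ => by ring
  have h1 := (hsum.congr_of_eventuallyEq hzero.symm).unique (hasDerivAt_const (0 : ℂ) (0 : ℂ))
  have hqM : q.1 ∈ M := (Finset.mem_erase.1 q.2).2
  rw [Finset.sum_add_distrib] at h1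
  simp only [ite_mul, one_mul, zero_mul, Finset.sum_ite_eq', if_pos hqM] at h1
  rw [← h1]
  congr 1
  unfold dd
  rw [Finset.mul_sum]
  exact Finset.sum_congr rfl fun p _ => by ring

variable {n : ℕ}

/-- the relations -/
theorem rel_q {U : Set (Xm M → ℂ)} (hU : IsOpen U) {z : Fin n → (Xm M → ℂ) → ℂ} (hz : ∀ i, AnalyticOnNhd ℂ (z i) U)
    (h0 : ∀ i, ∀ x ∈ U, PP M (cf x) (z i x) (Complex.exp (z i x)) = 0)
    (h1 : ∀ i, ∀ x ∈ U, dd M (cf x) (z i x) (Complex.exp (z i x)) ≠ 0) {m : Fin n → ℂ} {C : ℂ}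
    (hC : ∀ x ∈ U, ∑ i, m i * z i x = C) {x : Xm M → ℂ} (hx : x ∈ U) (q : Xm M) :
    ∑ i, m i / dd M (cf x) (z i x) (Complex.exp (z i x)) * (z i x ^ q.1.1 * Complex.exp (z i x) ^ q.1.2) = 0 := by
  have h2 : ∑ i, m i * fderiv ℂ (z i) x (Pi.single q 1) = 0 := by
    have h3 : HasFDerivAt (fun x => ∑ i, m i * z i x) (∑ i, m i • fderiv ℂ (z i) x) x :=
      HasFDerivAt.fun_sum fun i _ => ((hz i x hx).differentiableAt.hasFDerivAt).const_mul (m i)
    have h4 : (fun x => ∑ i, m i * z i x) =ᶠ[nhds x] fun _ => C := by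
      filter_upwards [hU.mem_nhds hx] with y hy using hC y hy
    have h5 := (h3.congr_of_eventuallyEq h4.symm).unique (hasFDerivAt_const C x)
    have h6 := congrArg (fun L => L (Pi.single q 1)) h5
    simpa using h6
  rw [← neg_zero, ← h2, ← Finset.sum_neg_distrib]
  refine Finset.sum_congr rfl fun i _ => ?_
  have h3 := zero_deriv hU (hz i) (h0 i) hx q
  have h4 := h1 i x hx
  field_simp
  linear_combination m i * h3

/-- the relation for the constant monomial -/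
theorem rel_0 (hM : (0, 0) ∈ M) {U : Set (Xm M → ℂ)} (hU : IsOpen U) {z : Fin n → (Xm M → ℂ) → ℂ}
    (hz : ∀ i, AnalyticOnNhd ℂ (z i) U)
    (h0 : ∀ i, ∀ x ∈ U, PP M (cf x) (z i x) (Complex.exp (z i x)) = 0)
    (h1 : ∀ i, ∀ x ∈ U, dd M (cf x) (z i x) (Complex.exp (z i x)) ≠ 0) {m : Fin n → ℂ} {C : ℂ}
    (hC : ∀ x ∈ U, ∑ i, m i * z i x = C) {x : Xm M → ℂ} (hx : x ∈ U) :
    ∑ i, m i / dd M (cf x) (z i x) (Complex.exp (z i x)) = 0 := by
  have h2 : ∀ i, (1 : ℂ) = - ∑ q : Xm M, x q * (z i x ^ q.1.1 * Complex.exp (z i x) ^ q.1.2) := by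
    intro i
    have h3 := h0 i x hx
    unfold PP at h3
    rw [← Finset.add_sum_erase _ _ hM, cf_zero, ← Finset.sum_attach] at h3
    simp only [pow_zero, mul_one] at h3
    rw [eq_neg_iff_add_eq_zero, ← h3]
    congr 1
    rw [← Finset.univ_eq_attach]
    refine Finset.sum_congr rfl fun q _ => ?_
    have h4 : cf x q.1 = x q := by
      unfold cf
      rw [dif_pos q.2]
    rw [h4]
    ring
  have h3 : ∑ i, m i / dd M (cf x) (z i x) (Complex.exp (z i x)) =
      ∑ i, m i / dd M (cf x) (z i x) (Complex.exp (z i x)) *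
        (- ∑ q : Xm M, x q * (z i x ^ q.1.1 * Complex.exp (z i x) ^ q.1.2)) :=
    Finset.sum_congr rfl fun i _ => by rw [← h2 i, mul_one]
  rw [h3]
  have h4 : ∑ i, m i / dd M (cf x) (z i x) (Complex.exp (z i x)) *
        (- ∑ q : Xm M, x q * (z i x ^ q.1.1 * Complex.exp (z i x) ^ q.1.2)) =
      - ∑ q : Xm M, x q * ∑ i, m i / dd M (cf x) (z i x) (Complex.exp (z i x)) *
        (z i x ^ q.1.1 * Complex.exp (z i x) ^ q.1.2) := by
    simp only [mul_neg, Finset.mul_sum, Finset.sum_neg_distrib]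
    rw [Finset.sum_comm]
    congr 1
    refine Finset.sum_congr rfl fun q _ => Finset.sum_congr rfl fun i _ => ?_
    ring
  rw [h4]
  simp only [rel_q hU hz h0 h1 hC hx, mul_zero, Finset.sum_const_zero, neg_zero]

end Pool.Agent.V8H73.AZ
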